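import Mathlib

/-!
An abstract form of the visibility relation between pairwise disjoint boxes in general position:
integer coordinates `x1 < x2`, `y1 < y2`, and a relation `adj` such that two adjacent boxes are
not separated by a third one (`block`).
-/

open Finset

namespace Pool.Agent.H84.RV

/-- Pairwise disjoint boxes in general position, with an adjacency relation. -/
structure Cfg (V : Type) where
  x1 : V → ℤ
  x2 : V → ℤ
  y1 : V → ℤ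
  y2 : V → ℤ
  hx : ∀ v, x1 v < x2 v
  hy : ∀ v, y1 v < y2 v
  nx1 : ∀ u v, u ≠ v → x1 u ≠ x1 v
  nx2 : ∀ u v, u ≠ v → x2 u ≠ x2 v
  ny1 : ∀ u v, u ≠ v → y1 u ≠ y1 v
  ny2 : ∀ u v, u ≠ v → y2 u ≠ y2 v
  disj : ∀ u v, u ≠ v → x2 u < x1 v ∨ x2 v < x1 u ∨ y2 u < y1 v ∨ y2 v < y1 u
  adj : V → V → Prop
  sym : ∀ u v, adj u v → adj v u
  irr : ∀ u, ¬ adj u u
  block : ∀ u w v, adj u w → v ≠ u → v ≠ w →
    ¬ ((x1 v ≤ x1 u ∨ x1 v ≤ x1 w) ∧ (x2 u ≤ x2 v ∨ x2 w ≤ x2 v) ∧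
      (y1 v ≤ y1 u ∨ y1 v ≤ y1 w) ∧ (y2 u ≤ y2 v ∨ y2 w ≤ y2 v))

namespace Cfg

variable {V : Type}

/-- Reflection in a vertical line. -/
def flipX (C : Cfg V) : Cfg V where
  x1 v := -C.x2 v
  x2 v := -C.x1 v
  y1 := C.y1
  y2 := C.y2
  hx v := neg_lt_neg (C.hx v)
  hy := C.hy
  nx1 u v h := fun e => C.nx2 u v h (neg_injective e)
  nx2 u v h := fun e => C.nx1 u v h (neg_injective e)
  ny1 := C.ny1
  ny2 := C.ny2
  disj u v h := by
    rcases C.disj u v h with h | h | h | h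
    · exact Or.inr (Or.inl (neg_lt_neg h))
    · exact Or.inl (neg_lt_neg h)
    · exact Or.inr (Or.inr (Or.inl h))
    · exact Or.inr (Or.inr (Or.inr h))
  adj := C.adj
  sym := C.sym
  irr := C.irr
  block u w v h1 h2 h3 := fun ⟨a, b, c⟩ => C.block u w v h1 h2 h3
    ⟨b.imp neg_le_neg_iff.1 neg_le_neg_iff.1, a.imp neg_le_neg_iff.1 neg_le_neg_iff.1, c⟩

/-- Reflection in the diagonal. -/
def swap (C : Cfg V) : Cfg V where
  x1 := C.y1
  x2 := C.y2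
  y1 := C.x1
  y2 := C.x2
  hx := C.hy
  hy := C.hx
  nx1 := C.ny1
  nx2 := C.ny2
  ny1 := C.nx1
  ny2 := C.nx2
  disj u v h := by
    rcases C.disj u v h with h | h | h | h
    · exact Or.inr (Or.inr (Or.inl h))
    · exact Or.inr (Or.inr (Or.inr h))
    · exact Or.inl h
    · exact Or.inr (Or.inl h)
  adj := C.adj
  sym := C.sym
  irr := C.irr
  block u w v h1 h2 h3 := fun ⟨a, b, c, d⟩ => C.block u w v h1 h2 h3 ⟨c, d, a, b⟩

/-- Reflection in a horizontal line. -/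
def flipY (C : Cfg V) : Cfg V := C.swap.flipX.swap

/-- Restriction along an injective map. -/
def comap {W : Type} (C : Cfg V) (f : W → V) (hf : Function.Injective f) : Cfg W where
  x1 := C.x1 ∘ f
  x2 := C.x2 ∘ f
  y1 := C.y1 ∘ f
  y2 := C.y2 ∘ f
  hx _ := C.hx _
  hy _ := C.hy _
  nx1 _ _ h := C.nx1 _ _ (hf.ne h)
  nx2 _ _ h := C.nx2 _ _ (hf.ne h)
  ny1 _ _ h := C.ny1 _ _ (hf.ne h)
  ny2 _ _ h := C.ny2 _ _ (hf.ne h)
  disj _ _ h := C.disj _ _ (hf.ne h)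
  adj u v := C.adj (f u) (f v)
  sym _ _ h := C.sym _ _ h
  irr _ := C.irr _
  block _ _ _ h1 h2 h3 := C.block _ _ _ h1 (hf.ne h2) (hf.ne h3)

/-- `w` is to the left of `v` and spans `v`. -/
def NL (C : Cfg V) (v w : V) : Prop := C.x2 w < C.x1 v ∧ C.y1 w < C.y1 v ∧ C.y2 v < C.y2 w
/-- `w` is to the right of `v` and spans `v`. -/
def NR (C : Cfg V) (v w : V) : Prop := C.x2 v < C.x1 w ∧ C.y1 w < C.y1 v ∧ C.y2 v < C.y2 w
/-- `w` is above `v` and spans `v`. -/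
def NT (C : Cfg V) (v w : V) : Prop := C.x1 w < C.x1 v ∧ C.x2 v < C.x2 w ∧ C.y2 v < C.y1 w
/-- `w` is below `v` and spans `v`. -/
def NB (C : Cfg V) (v w : V) : Prop := C.x1 w < C.x1 v ∧ C.x2 v < C.x2 w ∧ C.y2 w < C.y1 v

/-- `v` is nested in `w`. -/
def nest (C : Cfg V) (v w : V) : Prop := C.NL v w ∨ C.NR v w ∨ C.NT v w ∨ C.NB v w

/-- `u` is to the lower left of `v`. -/
def PP (C : Cfg V) (u v : V) : Prop :=
  C.x1 u < C.x1 v ∧ C.x2 u < C.x2 v ∧ C.y1 u < C.y1 v ∧ C.y2 u < C.y2 v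

/-- `u` is to the upper left of `v`. -/
def PM (C : Cfg V) (u v : V) : Prop :=
  C.x1 u < C.x1 v ∧ C.x2 u < C.x2 v ∧ C.y1 v < C.y1 u ∧ C.y2 v < C.y2 u

/-- Adjacent and not nested. -/
def G (C : Cfg V) (u v : V) : Prop := C.adj u v ∧ ¬ C.nest u v ∧ ¬ C.nest v u

lemma G.symm {C : Cfg V} {u v : V} (h : C.G u v) : C.G v u := ⟨C.sym _ _ h.1, h.2.2, h.2.1⟩

lemma G.ne {C : Cfg V} {u v : V} (h : C.G u v) : u ≠ v := by
  rintro rfl
  exact C.irr _ h.1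

lemma adj_ne {C : Cfg V} {u v : V} (h : C.adj u v) : u ≠ v := by
  rintro rfl
  exact C.irr _ h

lemma nest_flipX (C : Cfg V) (u v : V) : C.flipX.nest u v ↔ C.nest u v := by
  simp only [nest, NL, NR, NT, NB, flipX, neg_lt_neg_iff]
  constructor
  · rintro (h | h | h | h)
    · exact Or.inr (Or.inl h)
    · exact Or.inl h
    · exact Or.inr (Or.inr (Or.inl ⟨h.2.1, h.1, h.2.2⟩))
    · exact Or.inr (Or.inr (Or.inr ⟨h.2.1, h.1, h.2.2⟩))
  · rintro (h | h | h | h)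
    · exact Or.inr (Or.inl h)
    · exact Or.inl h
    · exact Or.inr (Or.inr (Or.inl ⟨h.2.1, h.1, h.2.2⟩))
    · exact Or.inr (Or.inr (Or.inr ⟨h.2.1, h.1, h.2.2⟩))

lemma nest_swap (C : Cfg V) (u v : V) : C.swap.nest u v ↔ C.nest u v := by
  simp only [nest, NL, NR, NT, NB, swap]
  constructor
  · rintro (h | h | h | h)
    · exact Or.inr (Or.inr (Or.inr ⟨h.2.1, h.2.2, h.1⟩))
    · exact Or.inr (Or.inr (Or.inl ⟨h.2.1, h.2.2, h.1⟩))
    · exact Or.inr (Or.inl ⟨h.2.2, h.1, h.2.1⟩)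
    · exact Or.inl ⟨h.2.2, h.1, h.2.1⟩
  · rintro (h | h | h | h)
    · exact Or.inr (Or.inr (Or.inr ⟨h.2.1, h.2.2, h.1⟩))
    · exact Or.inr (Or.inr (Or.inl ⟨h.2.1, h.2.2, h.1⟩))
    · exact Or.inr (Or.inl ⟨h.2.2, h.1, h.2.1⟩)
    · exact Or.inl ⟨h.2.2, h.1, h.2.1⟩

lemma G_flipX (C : Cfg V) (u v : V) : C.flipX.G u v ↔ C.G u v := by
  simp only [G, nest_flipX]
  exact Iff.rfl

lemma G_swap (C : Cfg V) (u v : V) : C.swap.G u v ↔ C.G u v := by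
  simp only [G, nest_swap]
  exact Iff.rfl

lemma nest_flipY (C : Cfg V) (u v : V) : C.flipY.nest u v ↔ C.nest u v := by
  simp only [flipY, nest_swap, nest_flipX]

lemma G_flipY (C : Cfg V) (u v : V) : C.flipY.G u v ↔ C.G u v := by
  simp only [flipY, G_swap, G_flipX]

lemma PP_flipX (C : Cfg V) (u v : V) : C.flipX.PP u v ↔ C.PM v u := by
  simp only [PP, PM, flipX, neg_lt_neg_iff]
  exact ⟨fun h => ⟨h.2.1, h.1, h.2.2⟩, fun h => ⟨h.2.1, h.1, h.2.2⟩⟩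

lemma PM_flipX (C : Cfg V) (u v : V) : C.flipX.PM u v ↔ C.PP v u := by
  simp only [PP, PM, flipX, neg_lt_neg_iff]
  exact ⟨fun h => ⟨h.2.1, h.1, h.2.2⟩, fun h => ⟨h.2.1, h.1, h.2.2⟩⟩

lemma PP_swap (C : Cfg V) (u v : V) : C.swap.PP u v ↔ C.PP u v := by
  simp only [PP, swap]
  exact ⟨fun h => ⟨h.2.2.1, h.2.2.2, h.1, h.2.1⟩, fun h => ⟨h.2.2.1, h.2.2.2, h.1, h.2.1⟩⟩

lemma PM_swap (C : Cfg V) (u v : V) : C.swap.PM u v ↔ C.PM v u := by
  simp only [PM, swap]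
  exact ⟨fun h => ⟨h.2.2.1, h.2.2.2, h.1, h.2.1⟩, fun h => ⟨h.2.2.1, h.2.2.2, h.1, h.2.1⟩⟩

lemma PP_flipY (C : Cfg V) (u v : V) : C.flipY.PP u v ↔ C.PM u v := by
  simp only [flipY, PP_swap, PP_flipX, PM_swap]

lemma PM_flipY (C : Cfg V) (u v : V) : C.flipY.PM u v ↔ C.PP u v := by
  simp only [flipY, PP_swap, PM_flipX, PM_swap]

lemma nest_of_x {C : Cfg V} {v w : V} (h : v ≠ w) (h1 : C.x1 w < C.x1 v) (h2 : C.x2 v < C.x2 w) :
    C.nest v w := by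
  have h6 := C.hx v
  rcases C.disj v w h with h5 | h5 | h5 | h5
  · omega
  · omega
  · exact Or.inr (Or.inr (Or.inl ⟨h1, h2, h5⟩))
  · exact Or.inr (Or.inr (Or.inr ⟨h1, h2, h5⟩))

lemma nest_of_y {C : Cfg V} {v w : V} (h : v ≠ w) (h1 : C.y1 w < C.y1 v) (h2 : C.y2 v < C.y2 w) :
    C.nest v w := by
  have h6 := C.hy v
  rcases C.disj v w h with h5 | h5 | h5 | h5
  · exact Or.inr (Or.inl ⟨h5, h1, h2⟩)
  · exact Or.inl ⟨h5, h1, h2⟩
  · omega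
  · omega

lemma tri (C : Cfg V) {u v : V} (h : u ≠ v) :
    C.PP u v ∨ C.PP v u ∨ C.PM u v ∨ C.PM v u ∨ C.nest u v ∨ C.nest v u := by
  rcases lt_or_gt_of_ne (C.nx1 u v h) with h1 | h1
  · rcases lt_or_gt_of_ne (C.nx2 u v h) with h2 | h2
    · rcases lt_or_gt_of_ne (C.ny1 u v h) with h3 | h3
      · rcases lt_or_gt_of_ne (C.ny2 u v h) with h4 | h4
        · exact Or.inl ⟨h1, h2, h3, h4⟩
        · exact Or.inr (Or.inr (Or.inr (Or.inr (Or.inr (nest_of_y h.symm h3 h4)))))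
      · rcases lt_or_gt_of_ne (C.ny2 u v h) with h4 | h4
        · exact Or.inr (Or.inr (Or.inr (Or.inr (Or.inl (nest_of_y h h3 h4)))))
        · exact Or.inr (Or.inr (Or.inl ⟨h1, h2, h3, h4⟩))
    · exact Or.inr (Or.inr (Or.inr (Or.inr (Or.inr (nest_of_x h.symm h1 h2)))))
  · rcases lt_or_gt_of_ne (C.nx2 u v h) with h2 | h2
    · exact Or.inr (Or.inr (Or.inr (Or.inr (Or.inl (nest_of_x h h1 h2)))))
    · rcases lt_or_gt_of_ne (C.ny1 u v h) with h3 | h3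
      · rcases lt_or_gt_of_ne (C.ny2 u v h) with h4 | h4
        · exact Or.inr (Or.inr (Or.inr (Or.inl ⟨h1, h2, h3, h4⟩)))
        · exact Or.inr (Or.inr (Or.inr (Or.inr (Or.inr (nest_of_y h.symm h3 h4)))))
      · rcases lt_or_gt_of_ne (C.ny2 u v h) with h4 | h4
        · exact Or.inr (Or.inr (Or.inr (Or.inr (Or.inl (nest_of_y h h3 h4)))))
        · exact Or.inr (Or.inl ⟨h1, h2, h3, h4⟩)

lemma G.tri {C : Cfg V} {u v : V} (h : C.G u v) :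
    C.PP u v ∨ C.PP v u ∨ C.PM u v ∨ C.PM v u := by
  rcases C.tri h.ne with h1 | h1 | h1 | h1 | h1 | h1
  · exact Or.inl h1
  · exact Or.inr (Or.inl h1)
  · exact Or.inr (Or.inr (Or.inl h1))
  · exact Or.inr (Or.inr (Or.inr h1))
  · exact absurd h1 h.2.1
  · exact absurd h1 h.2.2

lemma chainP {C : Cfg V} {u v w : V} (h : C.adj u w) (h1 : C.PP u v) (h2 : C.PP v w) : False :=
  C.block u w v h (by rintro rfl; exact lt_irrefl _ h1.1) (by rintro rfl; exact lt_irrefl _ h2.1)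
    ⟨Or.inr h2.1.le, Or.inl h1.2.1.le, Or.inr h2.2.2.1.le, Or.inl h1.2.2.2.le⟩

lemma chainM {C : Cfg V} {u v w : V} (h : C.adj u w) (h1 : C.PM u v) (h2 : C.PM v w) : False :=
  C.block u w v h (by rintro rfl; exact lt_irrefl _ h1.1) (by rintro rfl; exact lt_irrefl _ h2.1)
    ⟨Or.inr h2.1.le, Or.inl h1.2.1.le, Or.inl h1.2.2.1.le, Or.inr h2.2.2.2.le⟩

lemma B1L {C : Cfg V} {v w z : V} (h : C.NL v w) (ha : C.adj z v) (hz : z ≠ w) :
    C.x2 w < C.x2 z := by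
  by_contra hc
  have h1 := C.hx w
  refine C.block z v w ha (Ne.symm hz) (by rintro rfl; exact lt_irrefl _ h.2.1)
    ⟨Or.inr (by have := h.1; omega), Or.inl (by omega), Or.inr h.2.1.le, Or.inr h.2.2.le⟩

lemma B1R {C : Cfg V} {v w z : V} (h : C.NR v w) (ha : C.adj z v) (hz : z ≠ w) :
    C.x1 z < C.x1 w := by
  by_contra hc
  have h1 := C.hx w
  refine C.block z v w ha (Ne.symm hz) (by rintro rfl; exact lt_irrefl _ h.2.1)
    ⟨Or.inl (by omega), Or.inr (by have := h.1; omega), Or.inr h.2.1.le, Or.inr h.2.2.le⟩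

lemma B1T {C : Cfg V} {v w z : V} (h : C.NT v w) (ha : C.adj z v) (hz : z ≠ w) :
    C.y1 z < C.y1 w := by
  by_contra hc
  have h1 := C.hy w
  refine C.block z v w ha (Ne.symm hz) (by rintro rfl; exact lt_irrefl _ h.1)
    ⟨Or.inr h.1.le, Or.inr h.2.1.le, Or.inl (by omega), Or.inr (by have := h.2.2; omega)⟩

lemma B1B {C : Cfg V} {v w z : V} (h : C.NB v w) (ha : C.adj z v) (hz : z ≠ w) :
    C.y2 w < C.y2 z := by
  by_contra hc
  have h1 := C.hy w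
  refine C.block z v w ha (Ne.symm hz) (by rintro rfl; exact lt_irrefl _ h.1)
    ⟨Or.inr h.1.le, Or.inr h.2.1.le, Or.inr (by have := h.2.2; omega), Or.inl (by omega)⟩

end Cfg

end Pool.Agent.H84.RV
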