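import Mathlib

/-!
Representations by pairwise disjoint rectangles with eyes at corners, and their visibility graphs,
following the problem file MP_fd1666_co.
-/

open Finset

namespace Pool.Agent.H84.RV

/-- A closed axis-parallel rectangle of positive width and height: left, right, bottom, top. -/
structure Rect where
  l : ℝ
  r : ℝ
  b : ℝ
  t : ℝ
  hlr : l < r
  hbt : b < t

/-- The set of points of a rectangle. -/
def Rect.carrier (A : Rect) : Set (ℝ × ℝ) := Set.Icc A.l A.r ×ˢ Set.Icc A.b A.t

/-- The corners of a rectangle are indexed by pairs of truth values: the first component is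
`true` for the right side, the second one is `true` for the upper side. -/
def Rect.corner (A : Rect) (c : Bool × Bool) : ℝ × ℝ :=
  (if c.1 then A.r else A.l, if c.2 then A.t else A.b)

/-- A representation: `n` pairwise disjoint rectangles, each with a set of eyes (any subset of
its four corners). -/
structure Rep (n : ℕ) where
  rect : Fin n → Rect
  disj : ∀ i j, i ≠ j → Disjoint (rect i).carrier (rect j).carrier
  eyes : Fin n → Finset (Bool × Bool)

variable {n : ℕ}

/-- The total number of eyes. -/
def Rep.numEyes (R : Rep n) : ℕ := ∑ i, (R.eyes i).card

/-- The rectangle `i` looking from its corner `c` sees the rectangle `j`: there is a rectangle of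
influence `Q` of positive width and height, with one corner at this corner, which meets the
rectangle `i` only in this corner, meets the rectangle `j` in a nonempty set contained in the
boundary of `j`, and meets no other rectangle. -/
def Rep.SeesBy (R : Rep n) (i j : Fin n) (c : Bool × Bool) : Prop :=
  ∃ Q : Rect, (∃ d, Q.corner d = (R.rect i).corner c) ∧
    Q.carrier ∩ (R.rect i).carrier = {(R.rect i).corner c} ∧
    (Q.carrier ∩ (R.rect j).carrier).Nonempty ∧
    Q.carrier ∩ (R.rect j).carrier ⊆ frontier (R.rect j).carrier ∧
    ∀ k, k ≠ i → k ≠ j → Disjoint Q.carrier (R.rect k).carrier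

/-- The rectangle `i` sees the rectangle `j`: it does so from one of its eyes. -/
def Rep.Sees (R : Rep n) (i j : Fin n) : Prop := i ≠ j ∧ ∃ c ∈ R.eyes i, R.SeesBy i j c

/-- The graph of a representation. -/
def Rep.graph (R : Rep n) : SimpleGraph (Fin n) where
  Adj i j := R.Sees i j ∨ R.Sees j i
  symm := ⟨fun _ _ h => h.symm⟩
  loopless := ⟨fun _ h => h.elim (fun h => h.1 rfl) (fun h => h.1 rfl)⟩

/-- The number of edges of the graph of a representation. -/
noncomputable def Rep.numEdges (R : Rep n) : ℕ := R.graph.edgeSet.ncard

/-- `f n`: the maximum number of edges of the graph of a representation with `n` rectangles and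
`2 * n` eyes in total. -/
noncomputable def f (n : ℕ) : ℕ := sSup {m | ∃ R : Rep n, R.numEyes = 2 * n ∧ R.numEdges = m}

end Pool.Agent.H84.RV
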