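import Pool.Agent.H84.RV.Upper

/-!
The construction: four nested families of rectangles, placed in the pattern 2413.
-/

open Finset

namespace Pool.Agent.H84.RV

variable {n : ℕ}

/-- A representation with integer coordinates. -/
structure IRep (n : ℕ) where
  l : Fin n → ℤ
  r : Fin n → ℤ
  b : Fin n → ℤ
  t : Fin n → ℤ
  hlr : ∀ i, l i < r i
  hbt : ∀ i, b i < t i
  disj : ∀ i j, i ≠ j → r i < l j ∨ r j < l i ∨ t i < b j ∨ t j < b i
  eyes : Fin n → Finset (Bool × Bool)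

/-- The rectangles of an integer representation. -/
def IRep.rect (S : IRep n) (i : Fin n) : Rect :=
  ⟨S.l i, S.r i, S.b i, S.t i, Int.cast_lt.2 (S.hlr i), Int.cast_lt.2 (S.hbt i)⟩

/-- The representation. -/
def IRep.toRep (S : IRep n) : Rep n where
  rect := S.rect
  disj i j hij := by
    rw [Set.disjoint_iff_inter_eq_empty, ← Set.not_nonempty_iff_eq_empty, inter_nonempty_iff]
    rintro ⟨h1, h2, h3, h4⟩
    simp only [IRep.rect, Int.cast_le] at h1 h2 h3 h4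
    rcases S.disj i j hij with h | h | h | h <;> omega
  eyes := S.eyes

lemma frontier_carrier (A : Rect) (x y : ℝ) (h : (x, y) ∈ A.carrier)
    (h' : x = A.l ∨ x = A.r ∨ y = A.b ∨ y = A.t) : (x, y) ∈ frontier A.carrier := by
  have hcl : IsClosed A.carrier := isClosed_Icc.prod isClosed_Icc
  rw [hcl.frontier_eq]
  refine ⟨h, fun hi => ?_⟩
  rw [Rect.carrier, interior_prod_eq, interior_Icc, interior_Icc] at hi
  simp only [Set.mem_prod, Set.mem_Ioo] at hi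
  rcases h' with h' | h' | h' | h' <;> simp [h'] at hi

/-- A criterion for seeing. -/
lemma IRep.seesBy (S : IRep n) {i j : Fin n} (c : Bool × Bool)
    (a a' d d' : ℤ) (ha : a < a') (hd : d < d')
    (h1 : if c.1 then a = S.r i else a' = S.l i) (h2 : if c.2 then d = S.t i else d' = S.b i)
    (h3 : a ≤ S.r j ∧ S.l j ≤ a' ∧ d ≤ S.t j ∧ S.b j ≤ d')
    (h4 : (if c.1 then a' = S.l j else a = S.r j) ∨ (if c.2 then d' = S.b j else d = S.t j))
    (h5 : ∀ k, k ≠ i → k ≠ j → a' < S.l k ∨ S.r k < a ∨ d' < S.b k ∨ S.t k < d) :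
    S.toRep.SeesBy i j c := by
  refine ⟨⟨a, a', d, d', Int.cast_lt.2 ha, Int.cast_lt.2 hd⟩, ⟨(!c.1, !c.2), ?_⟩, ?_, ?_, ?_, ?_⟩
  · obtain ⟨c1, c2⟩ := c
    cases c1 <;> cases c2 <;>
      simp_all [Rect.corner, IRep.toRep, IRep.rect]
  · have e1 := S.hlr i
    have e2 := S.hbt i
    have e1' : (S.l i : ℝ) < S.r i := Int.cast_lt.2 e1
    have e2' : (S.b i : ℝ) < S.t i := Int.cast_lt.2 e2
    have ha' : (a : ℝ) < a' := Int.cast_lt.2 ha
    have hd' : (d : ℝ) < d' := Int.cast_lt.2 hd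
    ext ⟨x, y⟩
    obtain ⟨c1, c2⟩ := c
    simp only [Rect.carrier, Rect.corner, IRep.toRep, IRep.rect, Set.mem_inter_iff, Set.mem_prod,
      Set.mem_Icc, Set.mem_singleton_iff, Prod.mk.injEq]
    cases c1 <;> cases c2 <;> simp only [Bool.false_eq_true, if_true, if_false] at h1 h2 ⊢ <;>
      subst h1 <;> subst h2 <;> constructor <;> rintro ⟨p1, p2⟩
    · exact ⟨le_antisymm p1.1.2 p2.1.1, le_antisymm p1.2.2 p2.2.1⟩
    · subst p1; subst p2; refine ⟨⟨⟨?_, ?_⟩, ?_, ?_⟩, ⟨?_, ?_⟩, ?_, ?_⟩ <;> linarith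
    · exact ⟨le_antisymm p1.1.2 p2.1.1, le_antisymm p2.2.2 p1.2.1⟩
    · subst p1; subst p2; refine ⟨⟨⟨?_, ?_⟩, ?_, ?_⟩, ⟨?_, ?_⟩, ?_, ?_⟩ <;> linarith
    · exact ⟨le_antisymm p2.1.2 p1.1.1, le_antisymm p1.2.2 p2.2.1⟩
    · subst p1; subst p2; refine ⟨⟨⟨?_, ?_⟩, ?_, ?_⟩, ⟨?_, ?_⟩, ?_, ?_⟩ <;> linarith
    · exact ⟨le_antisymm p2.1.2 p1.1.1, le_antisymm p2.2.2 p1.2.1⟩
    · subst p1; subst p2; refine ⟨⟨⟨?_, ?_⟩, ?_, ?_⟩, ⟨?_, ?_⟩, ?_, ?_⟩ <;> linarith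
  · rw [inter_nonempty_iff]
    simp only [IRep.toRep, IRep.rect, Int.cast_le]
    exact h3
  · rintro ⟨x, y⟩ ⟨hq, hj⟩
    refine frontier_carrier _ _ _ hj ?_
    simp only [Rect.carrier, IRep.toRep, IRep.rect, Set.mem_prod, Set.mem_Icc] at hq hj ⊢
    obtain ⟨c1, c2⟩ := c
    rcases h4 with h4 | h4
    · cases c1 <;> simp only [Bool.false_eq_true, if_true, if_false] at h4 <;> subst h4
      · exact Or.inr (Or.inl (le_antisymm hj.1.2 hq.1.1))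
      · exact Or.inl (le_antisymm hq.1.2 hj.1.1)
    · cases c2 <;> simp only [Bool.false_eq_true, if_true, if_false] at h4 <;> subst h4
      · exact Or.inr (Or.inr (Or.inr (le_antisymm hj.2.2 hq.2.1)))
      · exact Or.inr (Or.inr (Or.inl (le_antisymm hq.2.2 hj.2.1)))
  · intro k hk hk'
    rw [Set.disjoint_iff_inter_eq_empty, ← Set.not_nonempty_iff_eq_empty, inter_nonempty_iff]
    rintro ⟨q1, q2, q3, q4⟩
    simp only [IRep.toRep, IRep.rect, Int.cast_le] at q1 q2 q3 q4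
    rcases h5 k hk hk' with h | h | h | h <;> omega

/-- Left sides. -/
def Lx (n v : ℕ) : ℤ := if v % 4 = 0 then 4 * n + 2 * (v / 4 : ℕ) else
  if v % 4 = 1 then 8 * n + (v / 4 : ℕ) else
  if v % 4 = 2 then 12 * n + (v / 4 : ℕ) else 18 * n - 2 * (v / 4 : ℕ)
/-- Right sides. -/
def Rx (n v : ℕ) : ℤ := if v % 4 = 0 then 4 * n + 2 * (v / 4 : ℕ) + 1 else
  if v % 4 = 1 then 10 * n + 1 - (v / 4 : ℕ) else
  if v % 4 = 2 then 14 * n + 1 - (v / 4 : ℕ) else 18 * n - 2 * (v / 4 : ℕ) + 1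
/-- Lower sides. -/
def Bx (n v : ℕ) : ℤ := if v % 4 = 0 then 8 * n + (v / 4 : ℕ) else
  if v % 4 = 1 then 18 * n - 2 * (v / 4 : ℕ) else
  if v % 4 = 2 then 4 * n + 2 * (v / 4 : ℕ) else 12 * n + (v / 4 : ℕ)
/-- Upper sides. -/
def Tx (n v : ℕ) : ℤ := if v % 4 = 0 then 10 * n + 1 - (v / 4 : ℕ) else
  if v % 4 = 1 then 18 * n - 2 * (v / 4 : ℕ) + 1 else
  if v % 4 = 2 then 4 * n + 2 * (v / 4 : ℕ) + 1 else 14 * n + 1 - (v / 4 : ℕ)
/-- Eyes. -/
def Ex (v : ℕ) : Finset (Bool × Bool) := if v % 4 = 0 then {(true, true), (false, true)} else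
  if v % 4 = 1 then {(true, false), (true, true)} else
  if v % 4 = 2 then {(false, true), (false, false)} else {(false, false), (true, false)}

lemma coords (n v : ℕ) (hv : v < n) : ∃ q : ℤ, 0 ≤ q ∧ q < n ∧
    ((4 * q = v ∧ Lx n v = 4 * n + 2 * q ∧ Rx n v = 4 * n + 2 * q + 1 ∧
        Bx n v = 8 * n + q ∧ Tx n v = 10 * n + 1 - q) ∨
     (4 * q + 1 = v ∧ Lx n v = 8 * n + q ∧ Rx n v = 10 * n + 1 - q ∧
        Bx n v = 18 * n - 2 * q ∧ Tx n v = 18 * n - 2 * q + 1) ∨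
     (4 * q + 2 = v ∧ Lx n v = 12 * n + q ∧ Rx n v = 14 * n + 1 - q ∧
        Bx n v = 4 * n + 2 * q ∧ Tx n v = 4 * n + 2 * q + 1) ∨
     (4 * q + 3 = v ∧ Lx n v = 18 * n - 2 * q ∧ Rx n v = 18 * n - 2 * q + 1 ∧
        Bx n v = 12 * n + q ∧ Tx n v = 14 * n + 1 - q)) := by
  refine ⟨((v / 4 : ℕ) : ℤ), by omega, by omega, ?_⟩
  have : v % 4 = 0 ∨ v % 4 = 1 ∨ v % 4 = 2 ∨ v % 4 = 3 := by omega
  rcases this with h | h | h | h
  · refine Or.inl ⟨by omega, ?_, ?_, ?_, ?_⟩ <;> simp [Lx, Rx, Bx, Tx, h]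
  · refine Or.inr (Or.inl ⟨by omega, ?_, ?_, ?_, ?_⟩) <;> simp [Lx, Rx, Bx, Tx, h]
  · refine Or.inr (Or.inr (Or.inl ⟨by omega, ?_, ?_, ?_, ?_⟩)) <;> simp [Lx, Rx, Bx, Tx, h]
  · refine Or.inr (Or.inr (Or.inr ⟨by omega, ?_, ?_, ?_, ?_⟩)) <;> simp [Lx, Rx, Bx, Tx, h]

/-- The construction. -/
def cons (n : ℕ) : IRep n where
  l i := Lx n i
  r i := Rx n i
  b i := Bx n i
  t i := Tx n i
  hlr i := by
    obtain ⟨q, h0, h1, h | h | h | h⟩ := coords n i i.2 <;> omega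
  hbt i := by
    obtain ⟨q, h0, h1, h | h | h | h⟩ := coords n i i.2 <;> omega
  disj i j hij := by
    have hij' : (i : ℕ) ≠ j := fun h => hij (Fin.ext h)
    obtain ⟨q, h0, h1, h | h | h | h⟩ := coords n i i.2 <;>
    obtain ⟨q', h0', h1', h' | h' | h' | h'⟩ := coords n j j.2 <;>
    obtain ⟨e, k1, k2, k3, k4⟩ := h <;> obtain ⟨e', k1', k2', k3', k4'⟩ := h' <;>
    rw [k1, k2, k3, k4, k1', k2', k3', k4'] <;> omega
  eyes i := Ex i

/-- The coordinates in the four classes. -/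
lemma coords0 {v : ℕ} (n : ℕ) (hv : v < n) (h : v % 4 = 0) : ∃ q : ℤ, 0 ≤ q ∧ q < n ∧
    4 * q = v ∧ Lx n v = 4 * n + 2 * q ∧ Rx n v = 4 * n + 2 * q + 1 ∧
        Bx n v = 8 * n + q ∧ Tx n v = 10 * n + 1 - q := by
  obtain ⟨q, h0, h1, h | h | h | h⟩ := coords n v hv
  · exact ⟨q, h0, h1, h⟩
  all_goals exact absurd h.1 (by omega)

lemma coords1 {v : ℕ} (n : ℕ) (hv : v < n) (h : v % 4 = 1) : ∃ q : ℤ, 0 ≤ q ∧ q < n ∧
    4 * q + 1 = v ∧ Lx n v = 8 * n + q ∧ Rx n v = 10 * n + 1 - q ∧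
        Bx n v = 18 * n - 2 * q ∧ Tx n v = 18 * n - 2 * q + 1 := by
  obtain ⟨q, h0, h1, h | h | h | h⟩ := coords n v hv
  · exact absurd h.1 (by omega)
  · exact ⟨q, h0, h1, h⟩
  all_goals exact absurd h.1 (by omega)

lemma coords2 {v : ℕ} (n : ℕ) (hv : v < n) (h : v % 4 = 2) : ∃ q : ℤ, 0 ≤ q ∧ q < n ∧
    4 * q + 2 = v ∧ Lx n v = 12 * n + q ∧ Rx n v = 14 * n + 1 - q ∧
        Bx n v = 4 * n + 2 * q ∧ Tx n v = 4 * n + 2 * q + 1 := by
  obtain ⟨q, h0, h1, h | h | h | h⟩ := coords n v hv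
  · exact absurd h.1 (by omega)
  · exact absurd h.1 (by omega)
  · exact ⟨q, h0, h1, h⟩
  · exact absurd h.1 (by omega)

lemma coords3 {v : ℕ} (n : ℕ) (hv : v < n) (h : v % 4 = 3) : ∃ q : ℤ, 0 ≤ q ∧ q < n ∧
    4 * q + 3 = v ∧ Lx n v = 18 * n - 2 * q ∧ Rx n v = 18 * n - 2 * q + 1 ∧
        Bx n v = 12 * n + q ∧ Tx n v = 14 * n + 1 - q := by
  obtain ⟨q, h0, h1, h | h | h | h⟩ := coords n v hv
  · exact absurd h.1 (by omega)
  · exact absurd h.1 (by omega)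
  · exact absurd h.1 (by omega)
  · exact ⟨q, h0, h1, h⟩


lemma sees01 (i j : Fin n) (hi : (i : ℕ) % 4 = 0) (hj : (j : ℕ) % 4 = 1) :
    (cons n).toRep.Sees i j := by
  have hij : i ≠ j := by rintro rfl; omega
  refine ⟨hij, (true, true), by simp [IRep.toRep, cons, Ex, hi], ?_⟩
  obtain ⟨q, h0, h1, h2, h3, h4, h5, h6⟩ := coords0 n i.2 hi
  obtain ⟨q', h0', h1', h2', h3', h4', h5', h6'⟩ := coords1 n j.2 hj
  refine (cons n).seesBy (true, true) (Rx n i) (Lx n j) (Tx n i) (Bx n j) ?_ ?_ ?_ ?_ ?_ ?_ ?_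
  · omega
  · omega
  · simp [cons]
  · simp [cons]
  · simp only [cons]
    omega
  · exact Or.inl (by simp [cons])
  · intro k hk hk'
    have hk1 : (k : ℕ) ≠ i := fun h => hk (Fin.ext h)
    have hk2 : (k : ℕ) ≠ j := fun h => hk' (Fin.ext h)
    simp only [cons]
    obtain ⟨p, p0, p1, p2 | p2 | p2 | p2⟩ := coords n k k.2 <;>
    obtain ⟨p2, p3, p4, p5, p6⟩ := p2 <;> omega

lemma sees03 (i j : Fin n) (hi : (i : ℕ) % 4 = 0) (hj : (j : ℕ) % 4 = 3) :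
    (cons n).toRep.Sees i j := by
  have hij : i ≠ j := by rintro rfl; omega
  refine ⟨hij, (true, true), by simp [IRep.toRep, cons, Ex, hi], ?_⟩
  obtain ⟨q, h0, h1, h2, h3, h4, h5, h6⟩ := coords0 n i.2 hi
  obtain ⟨q', h0', h1', h2', h3', h4', h5', h6'⟩ := coords3 n j.2 hj
  refine (cons n).seesBy (true, true) (Rx n i) (Lx n j) (Tx n i) (Bx n j) ?_ ?_ ?_ ?_ ?_ ?_ ?_
  · omega
  · omega
  · simp [cons]
  · simp [cons]
  · simp only [cons]
    omega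
  · exact Or.inl (by simp [cons])
  · intro k hk hk'
    have hk1 : (k : ℕ) ≠ i := fun h => hk (Fin.ext h)
    have hk2 : (k : ℕ) ≠ j := fun h => hk' (Fin.ext h)
    simp only [cons]
    obtain ⟨p, p0, p1, p2 | p2 | p2 | p2⟩ := coords n k k.2 <;>
    obtain ⟨p2, p3, p4, p5, p6⟩ := p2 <;> omega

lemma sees20 (i j : Fin n) (hi : (i : ℕ) % 4 = 2) (hj : (j : ℕ) % 4 = 0) :
    (cons n).toRep.Sees i j := by
  have hij : i ≠ j := by rintro rfl; omega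
  refine ⟨hij, (false, true), by simp [IRep.toRep, cons, Ex, hi], ?_⟩
  obtain ⟨q, h0, h1, h2, h3, h4, h5, h6⟩ := coords2 n i.2 hi
  obtain ⟨q', h0', h1', h2', h3', h4', h5', h6'⟩ := coords0 n j.2 hj
  refine (cons n).seesBy (false, true) (Rx n j) (Lx n i) (Tx n i) (Bx n j) ?_ ?_ ?_ ?_ ?_ ?_ ?_
  · omega
  · omega
  · simp [cons]
  · simp [cons]
  · simp only [cons]
    omega
  · exact Or.inl (by simp [cons])
  · intro k hk hk'
    have hk1 : (k : ℕ) ≠ i := fun h => hk (Fin.ext h)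
    have hk2 : (k : ℕ) ≠ j := fun h => hk' (Fin.ext h)
    simp only [cons]
    obtain ⟨p, p0, p1, p2 | p2 | p2 | p2⟩ := coords n k k.2 <;>
    obtain ⟨p2, p3, p4, p5, p6⟩ := p2 <;> omega

lemma sees21 (i j : Fin n) (hi : (i : ℕ) % 4 = 2) (hj : (j : ℕ) % 4 = 1) :
    (cons n).toRep.Sees i j := by
  have hij : i ≠ j := by rintro rfl; omega
  refine ⟨hij, (false, true), by simp [IRep.toRep, cons, Ex, hi], ?_⟩
  obtain ⟨q, h0, h1, h2, h3, h4, h5, h6⟩ := coords2 n i.2 hi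
  obtain ⟨q', h0', h1', h2', h3', h4', h5', h6'⟩ := coords1 n j.2 hj
  refine (cons n).seesBy (false, true) (Rx n j) (Lx n i) (Tx n i) (Bx n j) ?_ ?_ ?_ ?_ ?_ ?_ ?_
  · omega
  · omega
  · simp [cons]
  · simp [cons]
  · simp only [cons]
    omega
  · exact Or.inl (by simp [cons])
  · intro k hk hk'
    have hk1 : (k : ℕ) ≠ i := fun h => hk (Fin.ext h)
    have hk2 : (k : ℕ) ≠ j := fun h => hk' (Fin.ext h)
    simp only [cons]
    obtain ⟨p, p0, p1, p2 | p2 | p2 | p2⟩ := coords n k k.2 <;>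
    obtain ⟨p2, p3, p4, p5, p6⟩ := p2 <;> omega

lemma sees13 (i j : Fin n) (hi : (i : ℕ) % 4 = 1) (hj : (j : ℕ) % 4 = 3) :
    (cons n).toRep.Sees i j := by
  have hij : i ≠ j := by rintro rfl; omega
  refine ⟨hij, (true, false), by simp [IRep.toRep, cons, Ex, hi], ?_⟩
  obtain ⟨q, h0, h1, h2, h3, h4, h5, h6⟩ := coords1 n i.2 hi
  obtain ⟨q', h0', h1', h2', h3', h4', h5', h6'⟩ := coords3 n j.2 hj
  refine (cons n).seesBy (true, false) (Rx n i) (Lx n j) (Tx n j) (Bx n i) ?_ ?_ ?_ ?_ ?_ ?_ ?_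
  · omega
  · omega
  · simp [cons]
  · simp [cons]
  · simp only [cons]
    omega
  · exact Or.inl (by simp [cons])
  · intro k hk hk'
    have hk1 : (k : ℕ) ≠ i := fun h => hk (Fin.ext h)
    have hk2 : (k : ℕ) ≠ j := fun h => hk' (Fin.ext h)
    simp only [cons]
    obtain ⟨p, p0, p1, p2 | p2 | p2 | p2⟩ := coords n k k.2 <;>
    obtain ⟨p2, p3, p4, p5, p6⟩ := p2 <;> omega

lemma sees32 (i j : Fin n) (hi : (i : ℕ) % 4 = 3) (hj : (j : ℕ) % 4 = 2) :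
    (cons n).toRep.Sees i j := by
  have hij : i ≠ j := by rintro rfl; omega
  refine ⟨hij, (false, false), by simp [IRep.toRep, cons, Ex, hi], ?_⟩
  obtain ⟨q, h0, h1, h2, h3, h4, h5, h6⟩ := coords3 n i.2 hi
  obtain ⟨q', h0', h1', h2', h3', h4', h5', h6'⟩ := coords2 n j.2 hj
  refine (cons n).seesBy (false, false) (Rx n j) (Lx n i) (Tx n j) (Bx n i) ?_ ?_ ?_ ?_ ?_ ?_ ?_
  · omega
  · omega
  · simp [cons]
  · simp [cons]
  · simp only [cons]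
    omega
  · exact Or.inl (by simp [cons])
  · intro k hk hk'
    have hk1 : (k : ℕ) ≠ i := fun h => hk (Fin.ext h)
    have hk2 : (k : ℕ) ≠ j := fun h => hk' (Fin.ext h)
    simp only [cons]
    obtain ⟨p, p0, p1, p2 | p2 | p2 | p2⟩ := coords n k k.2 <;>
    obtain ⟨p2, p3, p4, p5, p6⟩ := p2 <;> omega

lemma sees00 (i j : Fin n) (hi : (i : ℕ) % 4 = 0) (hj : (j : ℕ) + 4 = i) :
    (cons n).toRep.Sees i j := by
  have hj2 : (j : ℕ) % 4 = 0 := by omega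
  have hij : i ≠ j := by rintro rfl; omega
  refine ⟨hij, (false, true), by simp [IRep.toRep, cons, Ex, hi], ?_⟩
  obtain ⟨q, h0, h1, h2, h3, h4, h5, h6⟩ := coords0 n i.2 hi
  obtain ⟨q', h0', h1', h2', h3', h4', h5', h6'⟩ := coords0 n j.2 hj2
  refine (cons n).seesBy (false, true) (Rx n j) (Lx n i) (Tx n i) (Tx n j) ?_ ?_ ?_ ?_ ?_ ?_ ?_
  · omega
  · omega
  · simp [cons]
  · simp [cons]
  · simp only [cons]
    omega
  · exact Or.inl (by simp [cons])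
  · intro k hk hk'
    have hk1 : (k : ℕ) ≠ i := fun h => hk (Fin.ext h)
    have hk2 : (k : ℕ) ≠ j := fun h => hk' (Fin.ext h)
    simp only [cons]
    obtain ⟨p, p0, p1, p2 | p2 | p2 | p2⟩ := coords n k k.2 <;>
    obtain ⟨p2, p3, p4, p5, p6⟩ := p2 <;> omega

lemma sees11 (i j : Fin n) (hi : (i : ℕ) % 4 = 1) (hj : (j : ℕ) + 4 = i) :
    (cons n).toRep.Sees i j := by
  have hj2 : (j : ℕ) % 4 = 1 := by omega
  have hij : i ≠ j := by rintro rfl; omega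
  refine ⟨hij, (true, true), by simp [IRep.toRep, cons, Ex, hi], ?_⟩
  obtain ⟨q, h0, h1, h2, h3, h4, h5, h6⟩ := coords1 n i.2 hi
  obtain ⟨q', h0', h1', h2', h3', h4', h5', h6'⟩ := coords1 n j.2 hj2
  refine (cons n).seesBy (true, true) (Rx n i) (Rx n j) (Tx n i) (Bx n j) ?_ ?_ ?_ ?_ ?_ ?_ ?_
  · omega
  · omega
  · simp [cons]
  · simp [cons]
  · simp only [cons]
    omega
  · exact Or.inr (by simp [cons])
  · intro k hk hk'
    have hk1 : (k : ℕ) ≠ i := fun h => hk (Fin.ext h)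
    have hk2 : (k : ℕ) ≠ j := fun h => hk' (Fin.ext h)
    simp only [cons]
    obtain ⟨p, p0, p1, p2 | p2 | p2 | p2⟩ := coords n k k.2 <;>
    obtain ⟨p2, p3, p4, p5, p6⟩ := p2 <;> omega

lemma sees22 (i j : Fin n) (hi : (i : ℕ) % 4 = 2) (hj : (j : ℕ) + 4 = i) :
    (cons n).toRep.Sees i j := by
  have hj2 : (j : ℕ) % 4 = 2 := by omega
  have hij : i ≠ j := by rintro rfl; omega
  refine ⟨hij, (false, false), by simp [IRep.toRep, cons, Ex, hi], ?_⟩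
  obtain ⟨q, h0, h1, h2, h3, h4, h5, h6⟩ := coords2 n i.2 hi
  obtain ⟨q', h0', h1', h2', h3', h4', h5', h6'⟩ := coords2 n j.2 hj2
  refine (cons n).seesBy (false, false) (Lx n j) (Lx n i) (Tx n j) (Bx n i) ?_ ?_ ?_ ?_ ?_ ?_ ?_
  · omega
  · omega
  · simp [cons]
  · simp [cons]
  · simp only [cons]
    omega
  · exact Or.inr (by simp [cons])
  · intro k hk hk'
    have hk1 : (k : ℕ) ≠ i := fun h => hk (Fin.ext h)
    have hk2 : (k : ℕ) ≠ j := fun h => hk' (Fin.ext h)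
    simp only [cons]
    obtain ⟨p, p0, p1, p2 | p2 | p2 | p2⟩ := coords n k k.2 <;>
    obtain ⟨p2, p3, p4, p5, p6⟩ := p2 <;> omega

lemma sees33 (i j : Fin n) (hi : (i : ℕ) % 4 = 3) (hj : (j : ℕ) + 4 = i) :
    (cons n).toRep.Sees i j := by
  have hj2 : (j : ℕ) % 4 = 3 := by omega
  have hij : i ≠ j := by rintro rfl; omega
  refine ⟨hij, (true, false), by simp [IRep.toRep, cons, Ex, hi], ?_⟩
  obtain ⟨q, h0, h1, h2, h3, h4, h5, h6⟩ := coords3 n i.2 hi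
  obtain ⟨q', h0', h1', h2', h3', h4', h5', h6'⟩ := coords3 n j.2 hj2
  refine (cons n).seesBy (true, false) (Rx n i) (Lx n j) (Bx n j) (Bx n i) ?_ ?_ ?_ ?_ ?_ ?_ ?_
  · omega
  · omega
  · simp [cons]
  · simp [cons]
  · simp only [cons]
    omega
  · exact Or.inl (by simp [cons])
  · intro k hk hk'
    have hk1 : (k : ℕ) ≠ i := fun h => hk (Fin.ext h)
    have hk2 : (k : ℕ) ≠ j := fun h => hk' (Fin.ext h)
    simp only [cons]
    obtain ⟨p, p0, p1, p2 | p2 | p2 | p2⟩ := coords n k k.2 <;>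
    obtain ⟨p2, p3, p4, p5, p6⟩ := p2 <;> omega

end Pool.Agent.H84.RV
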