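import Pool.Agent.H84.RV.FromRep
import Pool.Agent.H84.RV.Lower

/-!
The exact value of the maximum number of edges.
-/

open Finset

namespace Pool.Agent.H84.RV

variable {n : ℕ}

lemma card_Ex (v : ℕ) : (Ex v).card = 2 := by
  unfold Ex
  split_ifs <;> decide

lemma cons_eyes (n : ℕ) (i : Fin n) : ((cons n).toRep.eyes i).card = 2 := card_Ex _

lemma cons_numEyes (n : ℕ) : (cons n).toRep.numEyes = 2 * n := by
  rw [Rep.numEyes, Finset.sum_congr rfl (fun i _ => cons_eyes n i)]
  simp [mul_comm]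

lemma cons_adj_ne (n : ℕ) (i j : Fin n) (h : (i : ℕ) % 4 ≠ (j : ℕ) % 4) :
    (cons n).toRep.graph.Adj i j := by
  have hi : (i : ℕ) % 4 < 4 := Nat.mod_lt _ (by norm_num)
  have hj : (j : ℕ) % 4 < 4 := Nat.mod_lt _ (by norm_num)
  have hi' : (i : ℕ) % 4 = 0 ∨ (i : ℕ) % 4 = 1 ∨ (i : ℕ) % 4 = 2 ∨ (i : ℕ) % 4 = 3 := by omega
  have hj' : (j : ℕ) % 4 = 0 ∨ (j : ℕ) % 4 = 1 ∨ (j : ℕ) % 4 = 2 ∨ (j : ℕ) % 4 = 3 := by omega
  rcases hi' with a | a | a | a <;> rcases hj' with b | b | b | b
  · exact absurd (a.trans b.symm) h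
  · exact Or.inl (sees01 i j a b)
  · exact Or.inr (sees20 j i b a)
  · exact Or.inl (sees03 i j a b)
  · exact Or.inr (sees01 j i b a)
  · exact absurd (a.trans b.symm) h
  · exact Or.inr (sees21 j i b a)
  · exact Or.inl (sees13 i j a b)
  · exact Or.inl (sees20 i j a b)
  · exact Or.inl (sees21 i j a b)
  · exact absurd (a.trans b.symm) h
  · exact Or.inr (sees32 j i b a)
  · exact Or.inr (sees03 j i b a)
  · exact Or.inr (sees13 j i b a)
  · exact Or.inl (sees32 i j a b)
  · exact absurd (a.trans b.symm) h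

lemma cons_adj_add (n : ℕ) (i j : Fin n) (h : (j : ℕ) + 4 = i) :
    (cons n).toRep.graph.Adj i j := by
  have hi : (i : ℕ) % 4 < 4 := Nat.mod_lt _ (by norm_num)
  have hi' : (i : ℕ) % 4 = 0 ∨ (i : ℕ) % 4 = 1 ∨ (i : ℕ) % 4 = 2 ∨ (i : ℕ) % 4 = 3 := by omega
  rcases hi' with a | a | a | a
  · exact Or.inl (sees00 i j a h)
  · exact Or.inl (sees11 i j a h)
  · exact Or.inl (sees22 i j a h)
  · exact Or.inl (sees33 i j a h)

/-- The construction has many edges. -/
theorem cons_numEdges (n : ℕ) : 3 * n ^ 2 / 8 + (n - 4) ≤ (cons n).toRep.numEdges := by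
  classical
  let g : Fin (n - 4) → Sym2 (Fin n) := fun i =>
    s(⟨i, by omega⟩, ⟨i + 4, by omega⟩)
  have hg : Function.Injective g := by
    intro i j hij
    simp only [g, Sym2.eq_iff, Fin.mk.injEq] at hij
    apply Fin.ext
    omega
  let P : Finset (Sym2 (Fin n)) := univ.image g
  have hP : P.card = n - 4 := by
    rw [Finset.card_image_of_injective _ hg, card_univ, Fintype.card_fin]
  have hT : (SimpleGraph.turanGraph n 4).edgeFinset.card = 3 * n ^ 2 / 8 := by
    rw [SimpleGraph.card_edgeFinset_turanGraph, turan_formula]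
  have hdisj : Disjoint (SimpleGraph.turanGraph n 4).edgeFinset P := by
    rw [Finset.disjoint_left]
    intro e he hp
    obtain ⟨i, -, rfl⟩ := Finset.mem_image.1 hp
    rw [SimpleGraph.mem_edgeFinset, SimpleGraph.mem_edgeSet] at he
    simp only [SimpleGraph.turanGraph] at he
    omega
  have hsub : (((SimpleGraph.turanGraph n 4).edgeFinset ∪ P : Finset (Sym2 (Fin n))) :
      Set (Sym2 (Fin n))) ⊆ (cons n).toRep.graph.edgeSet := by
    intro e he
    rw [Finset.mem_coe, Finset.mem_union] at he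
    rcases he with he | he
    · induction e using Sym2.ind with
      | _ i j =>
        rw [SimpleGraph.mem_edgeFinset, SimpleGraph.mem_edgeSet] at he
        rw [SimpleGraph.mem_edgeSet]
        exact cons_adj_ne n i j he
    · obtain ⟨i, -, rfl⟩ := Finset.mem_image.1 he
      rw [SimpleGraph.mem_edgeSet]
      exact (cons_adj_add n _ _ rfl).symm
  calc 3 * n ^ 2 / 8 + (n - 4) = ((SimpleGraph.turanGraph n 4).edgeFinset ∪ P).card := by
        rw [Finset.card_union_of_disjoint hdisj, hT, hP]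
    _ = (((SimpleGraph.turanGraph n 4).edgeFinset ∪ P : Finset (Sym2 (Fin n))) :
          Set (Sym2 (Fin n))).ncard := (Set.ncard_coe_finset _).symm
    _ ≤ _ := Set.ncard_le_ncard hsub (Set.toFinite _)

/-- The upper bound for all `n`. -/
theorem numEdges_le_all (R : Rep n) : R.numEdges ≤ 3 * n ^ 2 / 8 + (n - 4) := by
  classical
  by_cases hn : 4 ≤ n
  · have := numEdges_le_exact hn R
    omega
  · have h1 := R.graph.card_edgeFinset_le_card_choose_two
    rw [Fintype.card_fin] at h1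
    have h2 : R.numEdges = R.graph.edgeFinset.card := by
      rw [Rep.numEdges, ← SimpleGraph.coe_edgeFinset, Set.ncard_coe_finset]
    rw [h2]
    refine h1.trans ?_
    have : n < 4 := not_le.1 hn
    interval_cases n <;> decide

theorem isGreatest (n : ℕ) : IsGreatest {m | ∃ R : Rep n, R.numEyes = 2 * n ∧ R.numEdges = m}
    (3 * n ^ 2 / 8 + (n - 4)) :=
  ⟨⟨(cons n).toRep, cons_numEyes n, le_antisymm (numEdges_le_all _) (cons_numEdges n)⟩,
    fun _ ⟨R, _, hm⟩ => hm ▸ numEdges_le_all R⟩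

end Pool.Agent.H84.RV
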