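import Pool.Agent.H84.RV.Defs

/-!
Upper bound: the pairs which see each other along a diagonal direction form a graph without a
complete subgraph on five vertices, and every eye gives at most two further pairs.
-/

open Finset

namespace Pool.Agent.H84.RV

variable {n : ℕ}

/-- Left end of the horizontal side, in coordinates in which the direction `c` points right. -/
def x0 (c : Bool) (A : Rect) : ℝ := if c then A.l else -A.r
/-- Right end of the horizontal side, in coordinates in which the direction `c` points right. -/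
def x1 (c : Bool) (A : Rect) : ℝ := if c then A.r else -A.l
/-- Lower end of the vertical side, in coordinates in which the direction `c` points up. -/
def y0 (c : Bool) (A : Rect) : ℝ := if c then A.b else -A.t
/-- Upper end of the vertical side, in coordinates in which the direction `c` points up. -/
def y1 (c : Bool) (A : Rect) : ℝ := if c then A.t else -A.b

lemma x0_lt_x1 (c : Bool) (A : Rect) : x0 c A < x1 c A := by
  have := A.hlr
  cases c <;> simp [x0, x1, this]

lemma y0_lt_y1 (c : Bool) (A : Rect) : y0 c A < y1 c A := by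
  have := A.hbt
  cases c <;> simp [y0, y1, this]

/-- Two rectangles meet. -/
lemma inter_nonempty_iff (A B : Rect) : (A.carrier ∩ B.carrier).Nonempty ↔
    A.l ≤ B.r ∧ B.l ≤ A.r ∧ A.b ≤ B.t ∧ B.b ≤ A.t := by
  have h1 := A.hlr
  have h2 := A.hbt
  have h3 := B.hlr
  have h4 := B.hbt
  constructor
  · rintro ⟨⟨x, y⟩, hA, hB⟩
    simp only [Rect.carrier, Set.mem_prod, Set.mem_Icc] at hA hB
    refine ⟨?_, ?_, ?_, ?_⟩ <;> linarith [hA.1.1, hA.1.2, hA.2.1, hA.2.2, hB.1.1, hB.1.2,
      hB.2.1, hB.2.2]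
  · rintro ⟨a1, a2, a3, a4⟩
    refine ⟨(max A.l B.l, max A.b B.b), ?_, ?_⟩ <;>
      simp only [Rect.carrier, Set.mem_prod, Set.mem_Icc] <;>
      refine ⟨⟨?_, ?_⟩, ⟨?_, ?_⟩⟩ <;>
      first
        | exact le_max_left _ _
        | exact le_max_right _ _
        | exact max_le (by linarith) (by linarith)

lemma meets_iff (c : Bool × Bool) (A B : Rect) : (A.carrier ∩ B.carrier).Nonempty ↔
    x0 c.1 A ≤ x1 c.1 B ∧ x0 c.1 B ≤ x1 c.1 A ∧ y0 c.2 A ≤ y1 c.2 B ∧ y0 c.2 B ≤ y1 c.2 A := by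
  rw [inter_nonempty_iff]
  obtain ⟨c1, c2⟩ := c
  cases c1 <;> cases c2 <;> simp [x0, x1, y0, y1] <;> tauto

lemma corner_data (c : Bool × Bool) (Q A : Rect)
    (h : Q.carrier ∩ A.carrier = {A.corner c}) :
    x0 c.1 Q = x1 c.1 A ∧ y0 c.2 Q = y1 c.2 A := by
  have h1 := A.hlr
  have h2 := A.hbt
  have h3 := Q.hlr
  have h4 := Q.hbt
  have hp : A.corner c ∈ Q.carrier ∩ A.carrier := by rw [h]; exact rfl
  have hq : ∀ x y, Q.l ≤ x → x ≤ Q.r → Q.b ≤ y → y ≤ Q.t → A.l ≤ x → x ≤ A.r → A.b ≤ y →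
      y ≤ A.t → (x, y) = A.corner c := by
    intro x y e1 e2 e3 e4 e5 e6 e7 e8
    have : (x, y) ∈ Q.carrier ∩ A.carrier := by
      simp only [Rect.carrier, Set.mem_inter_iff, Set.mem_prod, Set.mem_Icc]
      exact ⟨⟨⟨e1, e2⟩, e3, e4⟩, ⟨e5, e6⟩, e7, e8⟩
    rw [h] at this
    exact this
  obtain ⟨c1, c2⟩ := c
  simp only [Rect.carrier, Set.mem_inter_iff, Set.mem_prod, Set.mem_Icc, Rect.corner] at hp
  simp only [Rect.corner, Prod.mk.injEq] at hq
  constructor
  · cases c1
    · have := (hq (min Q.r A.r) (if c2 then A.t else A.b)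
        (le_min h3.le (le_trans hp.1.1.1 (by simp; exact h1.le))) (min_le_left _ _)
        hp.1.2.1 hp.1.2.2 (le_min (by simpa using hp.1.1.2) h1.le) (min_le_right _ _)
        hp.2.2.1 hp.2.2.2).1
      simp only [Bool.false_eq_true, if_false] at this
      simp only [x0, x1, Bool.false_eq_true, if_false, neg_inj]
      rcases min_choice Q.r A.r with e | e
      · rw [e] at this; exact this
      · rw [e] at this; linarith
    · have := (hq (max Q.l A.l) (if c2 then A.t else A.b)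
        (le_max_left _ _) (max_le h3.le (le_trans h1.le (by simpa using hp.1.1.2)))
        hp.1.2.1 hp.1.2.2 (le_max_right _ _) (max_le (by simpa using hp.1.1.1) h1.le)
        hp.2.2.1 hp.2.2.2).1
      simp only [if_true] at this
      simp only [x0, x1, if_true]
      rcases max_choice Q.l A.l with e | e
      · rw [e] at this; exact this
      · rw [e] at this; linarith
  · cases c2
    · have := (hq (if c1 then A.r else A.l) (min Q.t A.t)
        hp.1.1.1 hp.1.1.2
        (le_min h4.le (le_trans hp.1.2.1 (by simp; exact h2.le))) (min_le_left _ _)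
        hp.2.1.1 hp.2.1.2
        (le_min (by simpa using hp.1.2.2) h2.le) (min_le_right _ _)).2
      simp only [Bool.false_eq_true, if_false] at this
      simp only [y0, y1, Bool.false_eq_true, if_false, neg_inj]
      rcases min_choice Q.t A.t with e | e
      · rw [e] at this; exact this
      · rw [e] at this; linarith
    · have := (hq (if c1 then A.r else A.l) (max Q.b A.b)
        hp.1.1.1 hp.1.1.2
        (le_max_left _ _) (max_le h4.le (le_trans h2.le (by simpa using hp.1.2.2)))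
        hp.2.1.1 hp.2.1.2
        (le_max_right _ _) (max_le (by simpa using hp.1.2.1) h2.le)).2
      simp only [if_true] at this
      simp only [y0, y1, if_true]
      rcases max_choice Q.b A.b with e | e
      · rw [e] at this; exact this
      · rw [e] at this; linarith

/-- The box spanned at the corner `c` of `A` meets `K`. -/
def Mt (c : Bool × Bool) (A : Rect) (a b : ℝ) (K : Rect) : Prop :=
  x0 c.1 K ≤ a ∧ x1 c.1 A ≤ x1 c.1 K ∧ y0 c.2 K ≤ b ∧ y1 c.2 A ≤ y1 c.2 K

lemma seesBy_data {R : Rep n} {i j : Fin n} {c : Bool × Bool} (h : R.SeesBy i j c) :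
    ∃ a b, x1 c.1 (R.rect i) < a ∧ y1 c.2 (R.rect i) < b ∧ Mt c (R.rect i) a b (R.rect j) ∧
      ∀ k, k ≠ i → k ≠ j → ¬ Mt c (R.rect i) a b (R.rect k) := by
  obtain ⟨Q, -, h1, h2, -, h3⟩ := h
  obtain ⟨e1, e2⟩ := corner_data c Q _ h1
  refine ⟨x1 c.1 Q, y1 c.2 Q, e1 ▸ x0_lt_x1 _ _, e2 ▸ y0_lt_y1 _ _, ?_, ?_⟩
  · rw [meets_iff c] at h2
    exact ⟨h2.2.1, e1 ▸ h2.1, h2.2.2.2, e2 ▸ h2.2.2.1⟩
  · intro k hki hkj hm
    have := h3 k hki hkj
    rw [Set.disjoint_iff_inter_eq_empty] at this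
    have h4 : (Q.carrier ∩ (R.rect k).carrier).Nonempty := by
      rw [meets_iff c]
      exact ⟨e1 ▸ hm.2.1, hm.1, e2 ▸ hm.2.2.2, hm.2.2.1⟩
    rw [this] at h4
    exact Set.not_nonempty_empty h4

/-- `j` is strictly on the diagonal side `c` of `i`. -/
def Dg (R : Rep n) (c : Bool × Bool) (i j : Fin n) : Prop :=
  x1 c.1 (R.rect i) < x0 c.1 (R.rect j) ∧ y1 c.2 (R.rect i) < y0 c.2 (R.rect j)

/-- At most one rectangle is seen along the vertical line at an eye. -/
lemma vert_unique {R : Rep n} {i j j' : Fin n} {c : Bool × Bool} (h : R.SeesBy i j c)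
    (h' : R.SeesBy i j' c) (hij : i ≠ j) (hij' : i ≠ j')
    (hj : x0 c.1 (R.rect j) ≤ x1 c.1 (R.rect i)) (hj' : x0 c.1 (R.rect j') ≤ x1 c.1 (R.rect i)) :
    j = j' := by
  by_contra hne
  obtain ⟨a, b, p1, p2, p3, p4⟩ := seesBy_data h
  obtain ⟨a', b', q1, q2, q3, q4⟩ := seesBy_data h'
  rcases le_total (y0 c.2 (R.rect j)) (y0 c.2 (R.rect j')) with hle | hle
  · exact q4 j hij.symm hne ⟨hj.trans q1.le, p3.2.1, hle.trans q3.2.2.1, p3.2.2.2⟩
  · exact p4 j' hij'.symm (Ne.symm hne) ⟨hj'.trans p1.le, q3.2.1, hle.trans p3.2.2.1, q3.2.2.2⟩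

/-- At most one rectangle is seen along the horizontal line at an eye. -/
lemma hor_unique {R : Rep n} {i j j' : Fin n} {c : Bool × Bool} (h : R.SeesBy i j c)
    (h' : R.SeesBy i j' c) (hij : i ≠ j) (hij' : i ≠ j')
    (hj : y0 c.2 (R.rect j) ≤ y1 c.2 (R.rect i)) (hj' : y0 c.2 (R.rect j') ≤ y1 c.2 (R.rect i)) :
    j = j' := by
  by_contra hne
  obtain ⟨a, b, p1, p2, p3, p4⟩ := seesBy_data h
  obtain ⟨a', b', q1, q2, q3, q4⟩ := seesBy_data h'
  rcases le_total (x0 c.1 (R.rect j)) (x0 c.1 (R.rect j')) with hle | hle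
  · exact q4 j hij.symm hne ⟨hle.trans q3.1, p3.2.1, hj.trans q2.le, p3.2.2.2⟩
  · exact p4 j' hij'.symm (Ne.symm hne) ⟨hle.trans p3.1, q3.2.1, hj'.trans p2.le, q3.2.2.2⟩

/-- `j` is strictly above and strictly to the right of `i`. -/
def L1 (R : Rep n) (i j : Fin n) : Prop :=
  (R.rect i).r < (R.rect j).l ∧ (R.rect i).t < (R.rect j).b

/-- `j` is strictly below and strictly to the right of `i`. -/
def L2 (R : Rep n) (i j : Fin n) : Prop :=
  (R.rect i).r < (R.rect j).l ∧ (R.rect j).t < (R.rect i).b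

/-- The covering pairs of the two orders. -/
def C1 (R : Rep n) (i j : Fin n) : Prop := L1 R i j ∧ ∀ k, L1 R i k → L1 R k j → False
/-- The covering pairs of the two orders. -/
def C2 (R : Rep n) (i j : Fin n) : Prop := L2 R i j ∧ ∀ k, L2 R i k → L2 R k j → False

lemma L1_irrefl (R : Rep n) (i : Fin n) : ¬ L1 R i i := fun h => by
  have := (R.rect i).hlr
  linarith [h.1]

lemma L2_irrefl (R : Rep n) (i : Fin n) : ¬ L2 R i i := fun h => by
  have := (R.rect i).hlr
  linarith [h.1]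

lemma L1_trans {R : Rep n} {i j k : Fin n} (h : L1 R i j) (h' : L1 R j k) : L1 R i k := by
  have := (R.rect j).hlr
  have := (R.rect j).hbt
  exact ⟨by linarith [h.1, h'.1], by linarith [h.2, h'.2]⟩

lemma L2_trans {R : Rep n} {i j k : Fin n} (h : L2 R i j) (h' : L2 R j k) : L2 R i k := by
  have := (R.rect j).hlr
  have := (R.rect j).hbt
  exact ⟨by linarith [h.1, h'.1], by linarith [h.2, h'.2]⟩

lemma L12 {R : Rep n} {i j : Fin n} (h : L1 R i j) (h' : L2 R i j) : False := by
  have := (R.rect i).hbt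
  have := (R.rect j).hbt
  linarith [h.2, h'.2]

lemma L12' {R : Rep n} {i j : Fin n} (h : L1 R i j) (h' : L2 R j i) : False := by
  have := (R.rect i).hlr
  have := (R.rect j).hlr
  linarith [h.1, h'.1]

/-- The diagonal graph. -/
def dgraph (R : Rep n) : SimpleGraph (Fin n) where
  Adj i j := (C1 R i j ∨ C1 R j i) ∨ (C2 R i j ∨ C2 R j i)
  symm := ⟨fun _ _ h => h.elim (fun h => Or.inl h.symm) (fun h => Or.inr h.symm)⟩
  loopless := ⟨fun _ h => by
    rcases h with (h | h) | (h | h)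
    · exact L1_irrefl R _ h.1
    · exact L1_irrefl R _ h.1
    · exact L2_irrefl R _ h.1
    · exact L2_irrefl R _ h.1⟩

lemma adj_L1 {R : Rep n} {i j : Fin n} (h : (dgraph R).Adj i j) (hl : L1 R i j) : C1 R i j := by
  rcases h with (h | h) | (h | h)
  · exact h
  · exact absurd (L1_trans hl h.1) (L1_irrefl R i)
  · exact (L12 hl h.1).elim
  · exact (L12' hl h.1).elim

lemma adj_L2 {R : Rep n} {i j : Fin n} (h : (dgraph R).Adj i j) (hl : L2 R i j) : C2 R i j := by
  rcases h with (h | h) | (h | h)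
  · exact (L12 h.1 hl).elim
  · exact (L12' h.1 hl).elim
  · exact h
  · exact absurd (L2_trans hl h.1) (L2_irrefl R i)

/-- Three pairwise adjacent vertices, no two of which are comparable in the first order, do not
exist. -/
lemma no_three {R : Rep n} {a b c : Fin n} (hab : (dgraph R).Adj a b) (hac : (dgraph R).Adj a c)
    (hbc : (dgraph R).Adj b c) (h1 : ¬ L1 R a b) (h2 : ¬ L1 R b a) (h3 : ¬ L1 R a c)
    (h4 : ¬ L1 R c a) (h5 : ¬ L1 R b c) (h6 : ¬ L1 R c b) : False := by
  have k : ∀ {x y : Fin n}, (dgraph R).Adj x y → ¬ L1 R x y → ¬ L1 R y x →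
      L2 R x y ∨ L2 R y x := by
    intro x y h hx hy
    rcases h with (h | h) | (h | h)
    · exact absurd h.1 hx
    · exact absurd h.1 hy
    · exact Or.inl h.1
    · exact Or.inr h.1
  rcases k hab h1 h2 with u | u <;> rcases k hac h3 h4 with v | v <;>
    rcases k hbc h5 h6 with w | w
  · exact (adj_L2 hac v).2 b u w
  · exact (adj_L2 hab u).2 c v w
  · exact L2_irrefl R _ (L2_trans (L2_trans u w) v)
  · exact (adj_L2 hbc.symm w).2 a v u
  · exact (adj_L2 hbc w).2 a u v
  · exact L2_irrefl R _ (L2_trans (L2_trans v w) u)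
  · exact (adj_L2 hab.symm u).2 c w v
  · exact (adj_L2 hac.symm v).2 b w u

lemma cliqueFree (R : Rep n) : (dgraph R).CliqueFree 5 := by
  classical
  intro S hS
  obtain ⟨hc, hcard⟩ := (SimpleGraph.isNClique_iff _).1 hS
  have adj : ∀ {x y}, x ∈ S → y ∈ S → x ≠ y → (dgraph R).Adj x y := fun hx hy h => hc hx hy h
  set M := S.filter (fun x => ∃ y ∈ S, L1 R y x) with hM
  set N := S.filter (fun x => ¬ ∃ y ∈ S, L1 R y x) with hN
  have hsum : M.card + N.card = 5 := by
    rw [hM, hN, Finset.card_filter_add_card_filter_not, hcard]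
  -- three elements of one of the two parts
  have key : ∀ T : Finset (Fin n), T ⊆ S → (∀ x ∈ T, ∀ y ∈ T, ¬ L1 R x y) → T.card ≤ 2 := by
    intro T hT hinc
    by_contra hlt
    obtain ⟨a, ha, b, hb, c, hc', hab, hac, hbc⟩ := Finset.two_lt_card.1 (by omega : 2 < T.card)
    exact no_three (adj (hT ha) (hT hb) hab) (adj (hT ha) (hT hc') hac)
      (adj (hT hb) (hT hc') hbc) (hinc _ ha _ hb) (hinc _ hb _ ha) (hinc _ ha _ hc')
      (hinc _ hc' _ ha) (hinc _ hb _ hc') (hinc _ hc' _ hb)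
  have k1 := key M (Finset.filter_subset _ _) (by
    intro x hx y hy hxy
    rw [hM, Finset.mem_filter] at hx hy
    obtain ⟨hxS, z, hzS, hzx⟩ := hx
    have hzy := L1_trans hzx hxy
    have hne : z ≠ y := by
      rintro rfl
      exact L1_irrefl R _ hzy
    exact (adj_L1 (adj hzS hy.1 hne) hzy).2 x hzx hxy)
  have k2 := key N (Finset.filter_subset _ _) (by
    intro x hx y hy hxy
    rw [hN, Finset.mem_filter] at hx hy
    exact hy.2 ⟨x, hx.1, hxy⟩)
  omega

/-- A strictly diagonal pair seen from an eye is an edge of the diagonal graph. -/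
lemma diag_adj {R : Rep n} {i j : Fin n} {c : Bool × Bool} (h : R.SeesBy i j c)
    (hd : Dg R c i j) : (dgraph R).Adj i j := by
  obtain ⟨a, b, p1, p2, p3, p4⟩ := seesBy_data h
  obtain ⟨c1, c2⟩ := c
  have hi := (R.rect i).hlr
  have hi' := (R.rect i).hbt
  have hj := (R.rect j).hlr
  have hj' := (R.rect j).hbt
  have key : ∀ k, x1 c1 (R.rect i) < x0 c1 (R.rect k) → x1 c1 (R.rect k) < x0 c1 (R.rect j) →
      y1 c2 (R.rect i) < y0 c2 (R.rect k) → y1 c2 (R.rect k) < y0 c2 (R.rect j) → False := by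
    intro k h1 h2 h3 h4
    have e1 := x0_lt_x1 c1 (R.rect k)
    have e2 := y0_lt_y1 c2 (R.rect k)
    refine p4 k ?_ ?_ ⟨?_, ?_, ?_, ?_⟩
    · rintro rfl
      linarith
    · rintro rfl
      linarith
    · exact (e1.trans h2).le.trans p3.1
    · exact (h1.trans e1).le
    · exact (e2.trans h4).le.trans p3.2.2.1
    · exact (h3.trans e2).le
  obtain ⟨d1, d2⟩ := hd
  cases c1 <;> cases c2 <;> simp only [x0, x1, y0, y1, if_true, if_false, Bool.false_eq_true,
    neg_lt_neg_iff] at key d1 d2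
  · exact Or.inl (Or.inr ⟨⟨d1, d2⟩, fun k a b => key k b.1 a.1 b.2 a.2⟩)
  · exact Or.inr (Or.inr ⟨⟨d1, d2⟩, fun k a b => key k b.1 a.1 b.2 a.2⟩)
  · exact Or.inr (Or.inl ⟨⟨d1, d2⟩, fun k a b => key k a.1 b.1 a.2 b.2⟩)
  · exact Or.inl (Or.inl ⟨⟨d1, d2⟩, fun k a b => key k a.1 b.1 a.2 b.2⟩)

/-- The rectangle seen along the vertical (horizontal) line at a corner, if any. -/
noncomputable def target (R : Rep n) (i : Fin n) (c : Bool × Bool) (v : Bool) : Fin n :=
  open Classical in
  if h : ∃ j, i ≠ j ∧ R.SeesBy i j c ∧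
    (if v then x0 c.1 (R.rect j) ≤ x1 c.1 (R.rect i) else y0 c.2 (R.rect j) ≤ y1 c.2 (R.rect i))
  then h.choose else i

lemma target_vert {R : Rep n} {i j : Fin n} {c : Bool × Bool} (hij : i ≠ j)
    (h : R.SeesBy i j c) (hj : x0 c.1 (R.rect j) ≤ x1 c.1 (R.rect i)) :
    target R i c true = j := by
  have hex : ∃ j, i ≠ j ∧ R.SeesBy i j c ∧ (if true then x0 c.1 (R.rect j) ≤ x1 c.1 (R.rect i)
      else y0 c.2 (R.rect j) ≤ y1 c.2 (R.rect i)) := ⟨j, hij, h, by simpa using hj⟩
  rw [target, dif_pos hex]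
  obtain ⟨a1, a2, a3⟩ := hex.choose_spec
  exact vert_unique a2 h a1 hij (by simpa using a3) hj

lemma target_hor {R : Rep n} {i j : Fin n} {c : Bool × Bool} (hij : i ≠ j)
    (h : R.SeesBy i j c) (hj : y0 c.2 (R.rect j) ≤ y1 c.2 (R.rect i)) :
    target R i c false = j := by
  have hex : ∃ j, i ≠ j ∧ R.SeesBy i j c ∧ (if false then x0 c.1 (R.rect j) ≤ x1 c.1 (R.rect i)
      else y0 c.2 (R.rect j) ≤ y1 c.2 (R.rect i)) := ⟨j, hij, h, by simpa using hj⟩
  rw [target, dif_pos hex]
  obtain ⟨a1, a2, a3⟩ := hex.choose_spec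
  exact hor_unique a2 h a1 hij (by simpa using a3) hj

lemma turan_formula (n : ℕ) : (n ^ 2 - (n % 4) ^ 2) * (4 - 1) / (2 * 4) + (n % 4).choose 2 =
    3 * n ^ 2 / 8 := by
  obtain ⟨q, s, hs, rfl⟩ : ∃ q s, s < 4 ∧ n = 4 * q + s := ⟨n / 4, n % 4, Nat.mod_lt _ (by norm_num),
    by omega⟩
  have e : (4 * q + s) % 4 = s := by omega
  rw [e]
  have e2 : (4 * q + s) ^ 2 - s ^ 2 = 8 * (2 * q ^ 2 + q * s) := by
    have : (4 * q + s) ^ 2 = 8 * (2 * q ^ 2 + q * s) + s ^ 2 := by ring
    omega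
  have e3 : (4 * q + s) ^ 2 = 8 * (2 * q ^ 2 + q * s) + s ^ 2 := by ring
  rw [e2, e3]
  interval_cases s <;> simp [Nat.choose] <;> omega

/-- The general upper bound. -/
theorem numEdges_le (R : Rep n) : R.numEdges ≤ 3 * n ^ 2 / 8 + 2 * R.numEyes := by
  classical
  have hD : (dgraph R).edgeFinset.card ≤ 3 * n ^ 2 / 8 := by
    have h0 : (SimpleGraph.turanGraph n 4).IsTuranMaximal 4 :=
      SimpleGraph.isTuranMaximal_turanGraph (by norm_num)
    have h1 := h0.2 (cliqueFree R)
    rw [SimpleGraph.card_edgeFinset_turanGraph, turan_formula] at h1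
    exact h1
  let T : Finset (Sym2 (Fin n)) := ((Finset.univ.sigma fun i => R.eyes i) ×ˢ
    (Finset.univ : Finset Bool)).image (fun x => s(x.1.1, target R x.1.1 x.1.2 x.2))
  have hT : T.card ≤ 2 * R.numEyes := by
    refine Finset.card_image_le.trans ?_
    rw [Finset.card_product, Finset.card_sigma, Finset.card_univ, Fintype.card_bool, mul_comm]
    exact le_rfl
  have hsees : ∀ {i j : Fin n}, R.Sees i j → s(i, j) ∈ (dgraph R).edgeFinset ∪ T := by
    rintro i j ⟨hij, c, hc, hs⟩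
    rw [Finset.mem_union]
    by_cases hd : Dg R c i j
    · left
      rw [SimpleGraph.mem_edgeFinset, SimpleGraph.mem_edgeSet]
      exact diag_adj hs hd
    · right
      rw [Dg, not_and_or, not_lt, not_lt] at hd
      rw [Finset.mem_image]
      rcases hd with hd | hd
      · refine ⟨(⟨i, c⟩, true), ?_, ?_⟩
        · simpa using hc
        · simp only [target_vert hij hs hd]
      · refine ⟨(⟨i, c⟩, false), ?_, ?_⟩
        · simpa using hc
        · simp only [target_hor hij hs hd]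
  have hsub : R.graph.edgeSet ⊆ (((dgraph R).edgeFinset ∪ T : Finset (Sym2 (Fin n))) :
      Set (Sym2 (Fin n))) := by
    intro e he
    induction e using Sym2.ind with
    | _ i j =>
      rw [SimpleGraph.mem_edgeSet] at he
      rw [Finset.mem_coe]
      rcases he with he | he
      · exact hsees he
      · rw [Sym2.eq_swap]
        exact hsees he
  calc R.numEdges ≤ ((dgraph R).edgeFinset ∪ T).card := by
        rw [Rep.numEdges, ← Set.ncard_coe_finset]
        exact Set.ncard_le_ncard hsub (Finset.finite_toSet _)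
    _ ≤ (dgraph R).edgeFinset.card + T.card := Finset.card_union_le _ _
    _ ≤ _ := Nat.add_le_add hD hT

end Pool.Agent.H84.RV
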