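import Pool.Agent.H84.RV.Induct
import Pool.Agent.H84.RV.Upper

/-!
From representations to configurations, and the upper bound on the number of edges.
-/

open Finset

namespace Pool.Agent.H84.RV

variable {n : ℕ}

/-- Replacing the end points of intervals by integers in general position. -/
lemma exists_ranks (lo hi : Fin n → ℝ) (h : ∀ i, lo i < hi i) : ∃ a b : Fin n → ℤ,
    (∀ i, a i < b i) ∧ (∀ i j, i ≠ j → a i ≠ a j) ∧ (∀ i j, i ≠ j → b i ≠ b j) ∧
    (∀ i j, hi i < lo j → b i < a j) ∧ (∀ i j, a i ≤ a j → lo i ≤ lo j) ∧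
    (∀ i j, b i ≤ b j → hi i ≤ hi j) := by
  classical
  let κ : Fin n ⊕ Fin n → ℝ ×ₗ Fin n := Sum.elim (fun i => toLex (lo i, i)) (fun i => toLex (hi i, i))
  let rk : Fin n ⊕ Fin n → ℤ := fun x => ((univ.filter (fun y => κ y < κ x)).card : ℤ)
  have mono : ∀ x y, κ x ≤ κ y → rk x ≤ rk y := by
    intro x y hxy
    have : (univ.filter (fun z => κ z < κ x)).card ≤ (univ.filter (fun z => κ z < κ y)).card := by
      refine card_le_card fun z hz => ?_
      simp only [mem_filter, mem_univ, true_and] at hz ⊢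
      exact hz.trans_le hxy
    exact Nat.cast_le.2 this
  have smono : ∀ x y, κ x < κ y → rk x < rk y := by
    intro x y hxy
    have : (univ.filter (fun z => κ z < κ x)).card < (univ.filter (fun z => κ z < κ y)).card := by
      refine card_lt_card ⟨fun z hz => ?_, fun hh => ?_⟩
      · simp only [mem_filter, mem_univ, true_and] at hz ⊢
        exact hz.trans hxy
      · have := hh (show x ∈ univ.filter (fun z => κ z < κ y) by simpa using hxy)
        simp at this
    exact Nat.cast_lt.2 this
  have le_of : ∀ x y, rk x ≤ rk y → κ x ≤ κ y := by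
    intro x y hxy
    by_contra hc
    exact absurd (smono y x (not_le.1 hc)) (not_lt.2 hxy)
  have eq_of : ∀ x y, rk x = rk y → κ x = κ y := fun x y hxy =>
    le_antisymm (le_of x y hxy.le) (le_of y x hxy.ge)
  refine ⟨fun i => rk (Sum.inl i), fun i => rk (Sum.inr i), ?_, ?_, ?_, ?_, ?_, ?_⟩
  · intro i
    refine smono _ _ ?_
    simp only [κ, Sum.elim_inl, Sum.elim_inr]
    rw [Prod.Lex.toLex_lt_toLex]
    exact Or.inl (h i)
  · intro i j hij e
    have := eq_of _ _ e
    simp only [κ, Sum.elim_inl] at this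
    exact hij (Prod.ext_iff.1 (toLex.injective this)).2
  · intro i j hij e
    have := eq_of _ _ e
    simp only [κ, Sum.elim_inr] at this
    exact hij (Prod.ext_iff.1 (toLex.injective this)).2
  · intro i j hij
    refine smono _ _ ?_
    simp only [κ, Sum.elim_inl, Sum.elim_inr]
    rw [Prod.Lex.toLex_lt_toLex]
    exact Or.inl hij
  · intro i j hij
    have := le_of _ _ hij
    simp only [κ, Sum.elim_inl] at this
    rw [Prod.Lex.toLex_le_toLex] at this
    rcases this with h1 | h1
    · exact h1.le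
    · exact h1.1.le
  · intro i j hij
    have := le_of _ _ hij
    simp only [κ, Sum.elim_inr] at this
    rw [Prod.Lex.toLex_le_toLex] at this
    rcases this with h1 | h1
    · exact h1.le
    · exact h1.1.le

/-- Two rectangles which are met by a box disjoint from all other rectangles. -/
def Rep.BoxAdj (R : Rep n) (i j : Fin n) : Prop :=
  i ≠ j ∧ ∃ Q : Rect, (Q.carrier ∩ (R.rect i).carrier).Nonempty ∧
    (Q.carrier ∩ (R.rect j).carrier).Nonempty ∧
    ∀ k, k ≠ i → k ≠ j → Disjoint Q.carrier (R.rect k).carrier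

lemma Rep.BoxAdj.symm {R : Rep n} {i j : Fin n} (h : R.BoxAdj i j) : R.BoxAdj j i := by
  obtain ⟨h1, Q, h2, h3, h4⟩ := h
  exact ⟨h1.symm, Q, h3, h2, fun k hk hk' => h4 k hk' hk⟩

/-- Every representation gives a configuration. -/
lemma exists_cfg (R : Rep n) : ∃ C : Cfg (Fin n), C.adj = R.BoxAdj := by
  obtain ⟨a, b, h1, h2, h3, h4, h5, h6⟩ := exists_ranks (fun i => (R.rect i).l)
    (fun i => (R.rect i).r) (fun i => (R.rect i).hlr)
  obtain ⟨a', b', h1', h2', h3', h4', h5', h6'⟩ := exists_ranks (fun i => (R.rect i).b)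
    (fun i => (R.rect i).t) (fun i => (R.rect i).hbt)
  refine ⟨{ x1 := a, x2 := b, y1 := a', y2 := b', hx := h1, hy := h1', nx1 := h2, nx2 := h3,
            ny1 := h2', ny2 := h3', disj := ?_, adj := R.BoxAdj,
            sym := fun _ _ h => h.symm, irr := fun _ h => h.1 rfl, block := ?_ }, rfl⟩
  · intro u v huv
    have h := R.disj u v huv
    rw [Set.disjoint_iff_inter_eq_empty, ← Set.not_nonempty_iff_eq_empty, inter_nonempty_iff] at h
    by_cases c1 : (R.rect u).r < (R.rect v).l
    · exact Or.inl (h4 _ _ c1)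
    by_cases c2 : (R.rect v).r < (R.rect u).l
    · exact Or.inr (Or.inl (h4 _ _ c2))
    by_cases c3 : (R.rect u).t < (R.rect v).b
    · exact Or.inr (Or.inr (Or.inl (h4' _ _ c3)))
    by_cases c4 : (R.rect v).t < (R.rect u).b
    · exact Or.inr (Or.inr (Or.inr (h4' _ _ c4)))
    exact absurd ⟨not_lt.1 c2, not_lt.1 c1, not_lt.1 c4, not_lt.1 c3⟩ h
  · rintro u w v ⟨-, Q, q1, q2, q3⟩ hvu hvw ⟨c1, c2, c3, c4⟩
    have h := q3 v hvu hvw
    rw [Set.disjoint_iff_inter_eq_empty, ← Set.not_nonempty_iff_eq_empty, inter_nonempty_iff] at h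
    rw [inter_nonempty_iff] at q1 q2
    refine h ⟨?_, ?_, ?_, ?_⟩
    · rcases c2 with c2 | c2
      · have := h6 _ _ c2
        linarith [q1.1]
      · have := h6 _ _ c2
        linarith [q2.1]
    · rcases c1 with c1 | c1
      · have := h5 _ _ c1
        linarith [q1.2.1]
      · have := h5 _ _ c1
        linarith [q2.2.1]
    · rcases c4 with c4 | c4
      · have := h6' _ _ c4
        linarith [q1.2.2.1]
      · have := h6' _ _ c4
        linarith [q2.2.2.1]
    · rcases c3 with c3 | c3
      · have := h5' _ _ c3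
        linarith [q1.2.2.2]
      · have := h5' _ _ c3
        linarith [q2.2.2.2]

lemma Rep.Sees.boxAdj {R : Rep n} {i j : Fin n} (h : R.Sees i j) : R.BoxAdj i j := by
  obtain ⟨hij, c, -, Q, -, h1, h2, -, h3⟩ := h
  exact ⟨hij, Q, by rw [h1]; exact Set.singleton_nonempty _, h2, h3⟩

/-- The upper bound: for every set of eyes, the graph of a representation with `n ≥ 4` rectangles
has at most `⌊3n²/8⌋ + n - 4` edges. -/
theorem numEdges_le_exact (hn : 4 ≤ n) (R : Rep n) : R.numEdges ≤ 3 * n ^ 2 / 8 + n - 4 := by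
  classical
  obtain ⟨C, hC⟩ := exists_cfg R
  obtain ⟨m, rfl⟩ : ∃ m, n = m + 4 := ⟨n - 4, by omega⟩
  have h1 := C.edges_le m (Fin (m + 4)) (by simp)
  have h2 : R.graph ≤ C.graph := by
    intro i j hij
    change C.adj i j
    rw [hC]
    rcases hij with hij | hij
    · exact hij.boxAdj
    · exact hij.boxAdj.symm
  have h3 : R.numEdges ≤ C.graph.edgeFinset.card := by
    rw [Rep.numEdges, ← Set.ncard_coe_finset, SimpleGraph.coe_edgeFinset]
    exact Set.ncard_le_ncard (SimpleGraph.edgeSet_subset_edgeSet.2 h2) (Set.toFinite _)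
  omega

end Pool.Agent.H84.RV
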