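import Pool.Agent.H84.RV.World3

/-!
The bound on the number of edges of a configuration, by induction on the number of boxes.
-/

open Finset

namespace Pool.Agent.H84.RV
namespace Cfg

/-- The graph of a configuration. -/
def graph {V : Type} (C : Cfg V) : SimpleGraph V where
  Adj := C.adj
  symm := ⟨fun u v h => C.sym u v h⟩
  loopless := ⟨fun u h => C.irr u h⟩

lemma arith (n : ℕ) : 3 * n ^ 2 / 8 + 3 * (n + 1) / 4 = 3 * (n + 1) ^ 2 / 8 := by
  obtain ⟨q, s, hs, rfl⟩ : ∃ q s, s < 4 ∧ n = 4 * q + s := ⟨n / 4, n % 4, Nat.mod_lt _ (by norm_num),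
    by omega⟩
  have e1 : 3 * (4 * q + s) ^ 2 = 8 * (6 * q ^ 2 + 3 * (q * s)) + 3 * s ^ 2 := by ring
  have e2 : 3 * (4 * q + s + 1) ^ 2 = 8 * (6 * q ^ 2 + 3 * (q * s) + 3 * q) + 3 * (s + 1) ^ 2 := by
    ring
  rw [e1, e2]
  interval_cases s <;> omega

open Classical in
theorem edges_le (m : ℕ) : ∀ (V : Type) [Fintype V] (C : Cfg V), Fintype.card V = m + 4 →
    C.graph.edgeFinset.card ≤ 3 * (m + 4) ^ 2 / 8 + m := by
  induction m with
  | zero =>
    intro V _ C h
    have h1 := C.graph.card_edgeFinset_le_card_choose_two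
    rw [h] at h1
    simpa [Nat.choose] using h1
  | succ m ih =>
    intro V _ C h
    obtain ⟨x, hx⟩ : ∃ x, C.graph.degree x ≤ 3 * (m + 5) / 4 + 1 := by
      by_contra hcon
      push Not at hcon
      refine C.no_world ((m + 5) - 3 * (m+5) / 4 - 2) ⟨fun u => ?_, by omega⟩
      have h1 := hcon u
      have h2 : (univ.filter (fun v => C.adj u v)).card = C.graph.degree u := by
        rw [← SimpleGraph.card_neighborFinset_eq_degree, SimpleGraph.neighborFinset_eq_filter]
        rfl
      have h3 := Finset.card_filter_add_card_filter_not (s := (univ : Finset V)) (fun v => C.adj u v)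
      rw [card_univ] at h3
      omega
    let C' : Cfg ({x}ᶜ : Set V) := C.comap Subtype.val Subtype.val_injective
    have hc : Fintype.card ({x}ᶜ : Set V) = m + 4 := by
      rw [Fintype.card_compl_set, Set.card_singleton, h]
      omega
    have h1 := ih _ C' hc
    have h2 : C'.graph = C.graph.induce ({x}ᶜ : Set V) := by
      ext u v
      rfl
    have h3 := C.graph.card_edgeFinset_induce_compl_singleton x
    have h4 := C.graph.card_edgeFinset_deleteIncidenceSet x
    have h5 : C'.graph.edgeFinset.card = (C.graph.induce ({x}ᶜ : Set V)).edgeFinset.card := by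
      rw [← Set.ncard_coe_finset, ← Set.ncard_coe_finset, SimpleGraph.coe_edgeFinset,
        SimpleGraph.coe_edgeFinset, h2]
    have h6 := arith (m + 4)
    have e : m + 4 + 1 = m + 5 := by omega
    have e' : m + 1 + 4 = m + 5 := by omega
    rw [e] at h6
    rw [e']
    omega

end Cfg
end Pool.Agent.H84.RV
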