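import Pool.Agent.H84.RV.Cfg

/-!
There is no configuration in which every box is adjacent to almost all others.
-/

open Finset

namespace Pool.Agent.H84.RV
namespace Cfg

open Classical in
/-- All non-neighbourhoods are small. -/
def World {V : Type} [Fintype V] (C : Cfg V) (D : ℕ) : Prop :=
  (∀ u, (univ.filter (fun v => ¬ C.adj u v)).card ≤ D) ∧ 4 * D + 5 ≤ Fintype.card V

variable {V : Type} [Fintype V] {D : ℕ}

lemma World.flipX {C : Cfg V} (h : C.World D) : C.flipX.World D := h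
lemma World.swap {C : Cfg V} (h : C.World D) : C.swap.World D := h
lemma World.flipY {C : Cfg V} (h : C.World D) : C.flipY.World D := h

open Classical in
lemma card_common {C : Cfg V} (h : C.World D) (K : Finset V) :
    Fintype.card V ≤ (univ.filter (fun v => ∀ k ∈ K, C.adj k v)).card + K.card * D := by
  have h1 : (univ : Finset V) ⊆ univ.filter (fun v => ∀ k ∈ K, C.adj k v) ∪
      K.biUnion (fun k => univ.filter (fun v => ¬ C.adj k v)) := by
    intro v _
    by_cases hv : ∀ k ∈ K, C.adj k v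
    · rw [mem_union, mem_filter]
      exact Or.inl ⟨mem_univ _, hv⟩
    · push Not at hv
      obtain ⟨k, hk, hkv⟩ := hv
      rw [mem_union, mem_biUnion]
      exact Or.inr ⟨k, hk, by simp [hkv]⟩
  have h2 := (card_le_card h1).trans (card_union_le _ _)
  have h3 : (K.biUnion (fun k => univ.filter (fun v => ¬ C.adj k v))).card ≤ K.card * D :=
    card_biUnion_le_card_mul _ _ _ fun k _ => h.1 k
  rw [card_univ] at h2
  omega

open Classical in
lemma out_le_four {C : Cfg V} (K : Finset V) :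
    (univ.filter (fun v => (∀ k ∈ K, C.adj k v) ∧ ∃ k ∈ K, C.nest k v)).card ≤ 4 := by
  have hsub : univ.filter (fun v => (∀ k ∈ K, C.adj k v) ∧ ∃ k ∈ K, C.nest k v) ⊆
      ((univ.filter (fun v => (∀ k ∈ K, C.adj k v) ∧ ∃ k ∈ K, C.NL k v) ∪
      univ.filter (fun v => (∀ k ∈ K, C.adj k v) ∧ ∃ k ∈ K, C.NR k v)) ∪
      (univ.filter (fun v => (∀ k ∈ K, C.adj k v) ∧ ∃ k ∈ K, C.NT k v) ∪
      univ.filter (fun v => (∀ k ∈ K, C.adj k v) ∧ ∃ k ∈ K, C.NB k v))) := by
    intro v hv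
    simp only [mem_filter, mem_univ, true_and, mem_union] at hv ⊢
    obtain ⟨h1, k, hk, h2 | h2 | h2 | h2⟩ := hv
    · exact Or.inl (Or.inl ⟨h1, k, hk, h2⟩)
    · exact Or.inl (Or.inr ⟨h1, k, hk, h2⟩)
    · exact Or.inr (Or.inl ⟨h1, k, hk, h2⟩)
    · exact Or.inr (Or.inr ⟨h1, k, hk, h2⟩)
  have hL : (univ.filter (fun v => (∀ k ∈ K, C.adj k v) ∧ ∃ k ∈ K, C.NL k v)).card ≤ 1 := by
    rw [card_le_one]
    intro a ha b hb
    simp only [mem_filter, mem_univ, true_and] at ha hb
    obtain ⟨ha1, k, hk, ha2⟩ := ha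
    obtain ⟨hb1, k', hk', hb2⟩ := hb
    by_contra hne
    exact lt_asymm (B1L ha2 (C.sym _ _ (hb1 k hk)) (Ne.symm hne))
      (B1L hb2 (C.sym _ _ (ha1 k' hk')) hne)
  have hR : (univ.filter (fun v => (∀ k ∈ K, C.adj k v) ∧ ∃ k ∈ K, C.NR k v)).card ≤ 1 := by
    rw [card_le_one]
    intro a ha b hb
    simp only [mem_filter, mem_univ, true_and] at ha hb
    obtain ⟨ha1, k, hk, ha2⟩ := ha
    obtain ⟨hb1, k', hk', hb2⟩ := hb
    by_contra hne
    exact lt_asymm (B1R ha2 (C.sym _ _ (hb1 k hk)) (Ne.symm hne))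
      (B1R hb2 (C.sym _ _ (ha1 k' hk')) hne)
  have hT : (univ.filter (fun v => (∀ k ∈ K, C.adj k v) ∧ ∃ k ∈ K, C.NT k v)).card ≤ 1 := by
    rw [card_le_one]
    intro a ha b hb
    simp only [mem_filter, mem_univ, true_and] at ha hb
    obtain ⟨ha1, k, hk, ha2⟩ := ha
    obtain ⟨hb1, k', hk', hb2⟩ := hb
    by_contra hne
    exact lt_asymm (B1T ha2 (C.sym _ _ (hb1 k hk)) (Ne.symm hne))
      (B1T hb2 (C.sym _ _ (ha1 k' hk')) hne)
  have hB : (univ.filter (fun v => (∀ k ∈ K, C.adj k v) ∧ ∃ k ∈ K, C.NB k v)).card ≤ 1 := by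
    rw [card_le_one]
    intro a ha b hb
    simp only [mem_filter, mem_univ, true_and] at ha hb
    obtain ⟨ha1, k, hk, ha2⟩ := ha
    obtain ⟨hb1, k', hk', hb2⟩ := hb
    by_contra hne
    exact lt_asymm (B1B ha2 (C.sym _ _ (hb1 k hk)) (Ne.symm hne))
      (B1B hb2 (C.sym _ _ (ha1 k' hk')) hne)
  have h1 := card_le_card hsub
  have h2 := card_union_le
    (univ.filter (fun v => (∀ k ∈ K, C.adj k v) ∧ ∃ k ∈ K, C.NL k v) ∪
      univ.filter (fun v => (∀ k ∈ K, C.adj k v) ∧ ∃ k ∈ K, C.NR k v))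
    (univ.filter (fun v => (∀ k ∈ K, C.adj k v) ∧ ∃ k ∈ K, C.NT k v) ∪
      univ.filter (fun v => (∀ k ∈ K, C.adj k v) ∧ ∃ k ∈ K, C.NB k v))
  have h3 := card_union_le
    (univ.filter (fun v => (∀ k ∈ K, C.adj k v) ∧ ∃ k ∈ K, C.NL k v))
    (univ.filter (fun v => (∀ k ∈ K, C.adj k v) ∧ ∃ k ∈ K, C.NR k v))
  have h4 := card_union_le
    (univ.filter (fun v => (∀ k ∈ K, C.adj k v) ∧ ∃ k ∈ K, C.NT k v))
    (univ.filter (fun v => (∀ k ∈ K, C.adj k v) ∧ ∃ k ∈ K, C.NB k v))
  omega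

/-- A common neighbour of at most four boxes in which none of them is nested. -/
lemma exists_common {C : Cfg V} (h : C.World D) (K : Finset V) (hK : K.card ≤ 4) :
    ∃ v, (∀ k ∈ K, C.adj k v) ∧ ∀ k ∈ K, ¬ C.nest k v := by
  classical
  by_contra hc
  push Not at hc
  have h1 := card_common h K
  have h2 := out_le_four (C := C) K
  have h3 : univ.filter (fun v => ∀ k ∈ K, C.adj k v) ⊆
      univ.filter (fun v => (∀ k ∈ K, C.adj k v) ∧ ∃ k ∈ K, C.nest k v) := by
    intro v hv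
    simp only [mem_filter, mem_univ, true_and] at hv ⊢
    exact ⟨hv, hc v hv⟩
  have h4 := card_le_card h3
  have h5 : K.card * D ≤ 4 * D := Nat.mul_le_mul_right D hK
  have h6 := h.2
  omega

lemma common1 {C : Cfg V} (h : C.World D) (p : V) : ∃ v, C.adj p v ∧ ¬ C.nest p v := by
  classical
  obtain ⟨v, h1, h2⟩ := exists_common h {p} (by simp)
  exact ⟨v, h1 p (by simp), h2 p (by simp)⟩

lemma common2 {C : Cfg V} (h : C.World D) (p q : V) :
    ∃ v, (C.adj p v ∧ C.adj q v) ∧ ¬ C.nest p v ∧ ¬ C.nest q v := by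
  classical
  obtain ⟨v, h1, h2⟩ := exists_common h {p, q} ((card_le_two).trans (by norm_num))
  exact ⟨v, ⟨h1 p (by simp), h1 q (by simp)⟩, h2 p (by simp), h2 q (by simp)⟩

lemma common3 {C : Cfg V} (h : C.World D) (p q r : V) :
    ∃ v, (C.adj p v ∧ C.adj q v ∧ C.adj r v) ∧ ¬ C.nest p v ∧ ¬ C.nest q v ∧ ¬ C.nest r v := by
  classical
  obtain ⟨v, h1, h2⟩ := exists_common h {p, q, r} ((card_le_three).trans (by norm_num))
  exact ⟨v, ⟨h1 p (by simp), h1 q (by simp), h1 r (by simp)⟩, h2 p (by simp), h2 q (by simp),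
    h2 r (by simp)⟩

lemma common4 {C : Cfg V} (h : C.World D) (p q r s : V) :
    ∃ v, (C.adj p v ∧ C.adj q v ∧ C.adj r v ∧ C.adj s v) ∧ ¬ C.nest p v ∧ ¬ C.nest q v ∧
      ¬ C.nest r v ∧ ¬ C.nest s v := by
  classical
  obtain ⟨v, h1, h2⟩ := exists_common h {p, q, r, s} (card_le_four)
  exact ⟨v, ⟨h1 p (by simp), h1 q (by simp), h1 r (by simp), h1 s (by simp)⟩, h2 p (by simp),
    h2 q (by simp), h2 r (by simp), h2 s (by simp)⟩

/-- No common neighbour is nested in a member, unless some member is nested in it. -/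
def Cl1 (C : Cfg V) (p : V) : Prop := ∀ v, C.adj p v → C.nest v p → C.nest p v
/-- The same for two boxes. -/
def Cl2 (C : Cfg V) (p q : V) : Prop := ∀ v, C.adj p v → C.adj q v →
  ¬ C.nest p v → ¬ C.nest q v → ¬ C.nest v p ∧ ¬ C.nest v q
/-- The same for three boxes. -/
def Cl3 (C : Cfg V) (p q r : V) : Prop := ∀ v, C.adj p v → C.adj q v → C.adj r v →
  ¬ C.nest p v → ¬ C.nest q v → ¬ C.nest r v → ¬ C.nest v p ∧ ¬ C.nest v q ∧ ¬ C.nest v r

omit [Fintype V] in
/-- The types of a fourth box, for three boxes in standard position. -/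
lemma types3 {C : Cfg V} {a b c w : V} (hab : C.PP a b) (hac : C.PP a c) (hbc : C.PM b c)
    (gab : C.adj a b) (gac : C.adj a c) (gbc : C.adj b c)
    (ga : C.G a w) (gb : C.G b w) (gc : C.G c w) :
    (C.PM w a ∧ C.PP w b) ∨ (C.PM a w ∧ C.PP w c) := by
  have sba := C.sym _ _ gab
  have wa := C.sym _ _ ga.1
  have wb := C.sym _ _ gb.1
  have wc := C.sym _ _ gc.1
  rcases ga.tri with h | h | h | h
  · -- `a` lower left of `w`
    exfalso
    rcases gb.tri with h1 | h1 | h1 | h1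
    · exact chainP ga.1 hab h1
    · exact chainP gab h h1
    · -- PM b w
      rcases gc.tri with h2 | h2 | h2 | h2
      · exact chainP ga.1 hac h2
      · exact chainP gac h h2
      · exact chainM gb.1 hbc h2
      · exact chainM gbc h1 h2
    · -- PM w b
      rcases gc.tri with h2 | h2 | h2 | h2
      · exact chainP ga.1 hac h2
      · exact chainP gac h h2
      · have := h1.1; have := h2.1; have := hbc.1; omega
      · exact chainM wc h1 hbc
  · -- `w` lower left of `a`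
    exact (chainP wb h hab).elim
  · -- PM a w
    right
    refine ⟨h, ?_⟩
    rcases gc.tri with h2 | h2 | h2 | h2
    · exfalso; have := h2.2.2.1; have := h.2.2.1; have := hac.2.2.1; omega
    · exact h2
    · exfalso
      rcases gb.tri with h1 | h1 | h1 | h1
      · have := h1.2.2.1; have := h.2.2.1; have := hab.2.2.1; omega
      · have := h1.1; have := h2.1; have := hbc.1; omega
      · exact chainM gb.1 hbc h2
      · have := h1.2.2.1; have := h.2.2.1; have := hab.2.2.1; omega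
    · exfalso; have := h2.2.2.1; have := h.2.2.1; have := hac.2.2.1; omega
  · -- PM w a
    left
    refine ⟨h, ?_⟩
    rcases gb.tri with h1 | h1 | h1 | h1
    · exfalso; have := h1.1; have := h.1; have := hab.1; omega
    · exact h1
    · exfalso; have := h1.1; have := h.1; have := hab.1; omega
    · exfalso
      exact chainM wc h1 hbc

/-- Three boxes in standard position, with a fourth one of the left type. -/
lemma step3_left {C : Cfg V} (hW : C.World D) {a b c w0 : V} (hab : C.PP a b) (hac : C.PP a c)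
    (hbc : C.PM b c) (gab : C.G a b) (gac : C.G a c) (gbc : C.G b c) (hcl : C.Cl3 a b c)
    (g1 : C.G a w0) (g2 : C.G b w0) (g3 : C.G c w0) (h0 : C.PM w0 a) : False := by
  classical
  -- the candidates of the left type
  let S : Finset V := univ.filter (fun w => C.G a w ∧ C.G b w ∧ C.G c w ∧ C.PM w a)
  have hS : S.Nonempty := ⟨w0, by simp only [S, mem_filter, mem_univ, true_and]; exact ⟨g1, g2, g3, h0⟩⟩
  obtain ⟨w, hwS, hmax⟩ := S.exists_max_image C.x2 hS
  simp only [S, mem_filter, mem_univ, true_and] at hwS hmax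
  obtain ⟨ga, gb, gc, hwa⟩ := hwS
  have hwb : C.PP w b := by
    rcases types3 hab hac hbc gab.1 gac.1 gbc.1 ga gb gc with h | h
    · exact h.2
    · exfalso; have := h.1.1; have := hwa.1; omega
  obtain ⟨v, ⟨va, vb, vc, vw⟩, na, nb, nc, nw⟩ := common4 hW a b c w
  obtain ⟨na', nb', nc'⟩ := hcl v va vb vc na nb nc
  have Ga : C.G a v := ⟨va, na, na'⟩
  have Gb : C.G b v := ⟨vb, nb, nb'⟩
  have Gc : C.G c v := ⟨vc, nc, nc'⟩
  have hne : v ≠ w := (adj_ne vw).symm
  by_cases nw' : C.nest v w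
  · -- `v` is nested in `w`
    rcases nw' with h | h | h | h
    · rcases types3 hab hac hbc gab.1 gac.1 gbc.1 Ga Gb Gc with h' | h'
      · have := hmax v ⟨Ga, Gb, Gc, h'.1⟩
        have := h.1
        have := C.hx v
        omega
      · have := h'.1.2.2.1
        have := h.2.1
        have := hwa.2.2.1
        omega
    · have := B1R h vc (by rintro rfl; exact gc.1 |> C.irr _)
      have := hwa.1
      have := hac.1
      omega
    · have := B1T h vb (by rintro rfl; exact gb.1 |> C.irr _)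
      have := hwb.2.2.1
      omega
    · have := B1B h va (by rintro rfl; exact ga.1 |> C.irr _)
      have := hwa.2.2.2
      omega
  · have Gw : C.G w v := ⟨vw, nw, nw'⟩
    rcases types3 hab hac hbc gab.1 gac.1 gbc.1 Ga Gb Gc with h' | h'
    · rcases Gw.tri with h | h | h | h
      · exact chainP gb.symm.1 h h'.2
      · exact chainP Gb.symm.1 h hwb
      · exact chainM ga.symm.1 h h'.1
      · exact chainM Ga.symm.1 h hwa
    · exact chainM vw hwa h'.1

/-- Three boxes in standard position. -/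
lemma step3_canon {C : Cfg V} (hW : C.World D) {a b c : V} (hab : C.PP a b) (hac : C.PP a c)
    (hbc : C.PM b c) (gab : C.G a b) (gac : C.G a c) (gbc : C.G b c) (hcl : C.Cl3 a b c) :
    False := by
  obtain ⟨w, ⟨wa, wb, wc⟩, na, nb, nc⟩ := common3 hW a b c
  obtain ⟨na', nb', nc'⟩ := hcl w wa wb wc na nb nc
  have Ga : C.G a w := ⟨wa, na, na'⟩
  have Gb : C.G b w := ⟨wb, nb, nb'⟩
  have Gc : C.G c w := ⟨wc, nc, nc'⟩
  rcases types3 hab hac hbc gab.1 gac.1 gbc.1 Ga Gb Gc with h | h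
  · exact step3_left hW hab hac hbc gab gac gbc hcl Ga Gb Gc h.1
  · refine step3_left (C := C.swap) hW.swap (a := a) (b := c) (c := b) (w0 := w)
      ((PP_swap _ _ _).2 hac) ((PP_swap _ _ _).2 hab) ((PM_swap _ _ _).2 hbc)
      ((G_swap _ _ _).2 gac) ((G_swap _ _ _).2 gab) ((G_swap _ _ _).2 gbc.symm) ?_
      ((G_swap _ _ _).2 Ga) ((G_swap _ _ _).2 Gc) ((G_swap _ _ _).2 Gb) ((PM_swap _ _ _).2 h.1)
    intro v h1 h2 h3 h4 h5 h6
    simp only [nest_swap] at h4 h5 h6 ⊢
    obtain ⟨k1, k2, k3⟩ := hcl v h1 h3 h2 h4 h6 h5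
    exact ⟨k1, k3, k2⟩

end Cfg

end Pool.Agent.H84.RV
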