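import Pool.Agent.H84.RV.World

/-!
There is no configuration in which every box is adjacent to almost all others: the remaining steps.
-/

open Finset

namespace Pool.Agent.H84.RV
namespace Cfg

variable {V : Type} [Fintype V] {D : ℕ}

omit [Fintype V] in
lemma Cl3.flipX {C : Cfg V} {a b c : V} (h : C.Cl3 a b c) : C.flipX.Cl3 a b c := by
  intro v h1 h2 h3 h4 h5 h6
  simp only [nest_flipX] at h4 h5 h6 ⊢
  exact h v h1 h2 h3 h4 h5 h6

omit [Fintype V] in
lemma Cl3.flipY {C : Cfg V} {a b c : V} (h : C.Cl3 a b c) : C.flipY.Cl3 a b c := by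
  intro v h1 h2 h3 h4 h5 h6
  simp only [nest_flipY] at h4 h5 h6 ⊢
  exact h v h1 h2 h3 h4 h5 h6

omit [Fintype V] in
lemma Cl3.perm1 {C : Cfg V} {a b c : V} (h : C.Cl3 a b c) : C.Cl3 b a c := by
  intro v h1 h2 h3 h4 h5 h6
  obtain ⟨k1, k2, k3⟩ := h v h2 h1 h3 h5 h4 h6
  exact ⟨k2, k1, k3⟩

omit [Fintype V] in
lemma Cl3.perm2 {C : Cfg V} {a b c : V} (h : C.Cl3 a b c) : C.Cl3 a c b := by
  intro v h1 h2 h3 h4 h5 h6
  obtain ⟨k1, k2, k3⟩ := h v h1 h3 h2 h4 h6 h5
  exact ⟨k1, k3, k2⟩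

/-- Three boxes sorted by their left sides. -/
lemma step3_sorted {C : Cfg V} (hW : C.World D) {a b c : V} (h1 : C.x1 a < C.x1 b)
    (h2 : C.x1 b < C.x1 c) (gab : C.G a b) (gac : C.G a c) (gbc : C.G b c)
    (hcl : C.Cl3 a b c) : False := by
  have rab : C.PP a b ∨ C.PM a b := by
    rcases gab.tri with h | h | h | h
    · exact Or.inl h
    · have := h.1; omega
    · exact Or.inr h
    · have := h.1; omega
  have rbc : C.PP b c ∨ C.PM b c := by
    rcases gbc.tri with h | h | h | h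
    · exact Or.inl h
    · have := h.1; omega
    · exact Or.inr h
    · have := h.1; omega
  have rac : C.PP a c ∨ C.PM a c := by
    rcases gac.tri with h | h | h | h
    · exact Or.inl h
    · have := h.1; omega
    · exact Or.inr h
    · have := h.1; omega
  rcases rab with ab | ab <;> rcases rbc with bc | bc
  · exact chainP gac.1 ab bc
  · rcases rac with ac | ac
    · exact step3_canon hW ab ac bc gab gac gbc hcl
    · exact step3_canon (C := C.flipX) hW.flipX (a := c) (b := b) (c := a)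
        ((PP_flipX _ _ _).2 bc) ((PP_flipX _ _ _).2 ac) ((PM_flipX _ _ _).2 ab)
        ((G_flipX _ _ _).2 gbc.symm) ((G_flipX _ _ _).2 gac.symm) ((G_flipX _ _ _).2 gab.symm)
        hcl.flipX.perm1.perm2.perm1
  · rcases rac with ac | ac
    · exact step3_canon (C := C.flipX.flipY) hW (a := c) (b := b) (c := a)
        ((PP_flipY _ _ _).2 ((PM_flipX _ _ _).2 bc)) ((PP_flipY _ _ _).2 ((PM_flipX _ _ _).2 ac))
        ((PM_flipY _ _ _).2 ((PP_flipX _ _ _).2 ab))
        ((G_flipY _ _ _).2 ((G_flipX _ _ _).2 gbc.symm))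
        ((G_flipY _ _ _).2 ((G_flipX _ _ _).2 gac.symm))
        ((G_flipY _ _ _).2 ((G_flipX _ _ _).2 gab.symm)) hcl.flipX.flipY.perm1.perm2.perm1
    · exact step3_canon (C := C.flipY) hW.flipY (a := a) (b := b) (c := c)
        ((PP_flipY _ _ _).2 ab) ((PP_flipY _ _ _).2 ac) ((PM_flipY _ _ _).2 bc)
        ((G_flipY _ _ _).2 gab) ((G_flipY _ _ _).2 gac) ((G_flipY _ _ _).2 gbc) hcl.flipY
  · exact chainM gac.1 ab bc

/-- Three boxes. -/
lemma step3 {C : Cfg V} (hW : C.World D) {a b c : V} (gab : C.G a b) (gac : C.G a c)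
    (gbc : C.G b c) (hcl : C.Cl3 a b c) : False := by
  rcases lt_or_gt_of_ne (C.nx1 a b gab.ne) with h1 | h1 <;>
    rcases lt_or_gt_of_ne (C.nx1 b c gbc.ne) with h2 | h2 <;>
      rcases lt_or_gt_of_ne (C.nx1 a c gac.ne) with h3 | h3
  · exact step3_sorted hW h1 h2 gab gac gbc hcl
  · omega
  · exact step3_sorted hW h3 h2 gac gab gbc.symm hcl.perm2
  · exact step3_sorted hW h3 h1 gac.symm gbc.symm gab hcl.perm2.perm1
  · exact step3_sorted hW h1 h3 gab.symm gbc gac hcl.perm1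
  · exact step3_sorted hW h2 h3 gbc gab.symm gac.symm hcl.perm1.perm2
  · omega
  · exact step3_sorted hW h2 h1 gbc.symm gac.symm gab.symm hcl.perm1.perm2.perm1

omit [Fintype V] in
lemma Cl2.flipX {C : Cfg V} {a b : V} (h : C.Cl2 a b) : C.flipX.Cl2 a b := by
  intro v h1 h2 h4 h5
  simp only [nest_flipX] at h4 h5 ⊢
  exact h v h1 h2 h4 h5

omit [Fintype V] in
lemma Cl2.flipY {C : Cfg V} {a b : V} (h : C.Cl2 a b) : C.flipY.Cl2 a b := by
  intro v h1 h2 h4 h5
  simp only [nest_flipY] at h4 h5 ⊢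
  exact h v h1 h2 h4 h5

omit [Fintype V] in
lemma Cl2.swap {C : Cfg V} {a b : V} (h : C.Cl2 a b) : C.swap.Cl2 a b := by
  intro v h1 h2 h4 h5
  simp only [nest_swap] at h4 h5 ⊢
  exact h v h1 h2 h4 h5

omit [Fintype V] in
lemma Cl2.perm {C : Cfg V} {a b : V} (h : C.Cl2 a b) : C.Cl2 b a := by
  intro v h1 h2 h4 h5
  obtain ⟨k1, k2⟩ := h v h2 h1 h5 h4
  exact ⟨k2, k1⟩

/-- Two boxes and a third one between them in the vertical direction. -/
lemma step2_mid {C : Cfg V} (hW : C.World D) {p q w0 : V} (hpq : C.PP p q) (gpq : C.G p q)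
    (hcl : C.Cl2 p q) (g1 : C.G p w0) (g2 : C.G q w0) (h1 : C.y1 p < C.y1 w0)
    (h2 : C.y1 w0 < C.y1 q) : False := by
  classical
  let S : Finset V := univ.filter (fun w => C.G p w ∧ C.G q w ∧ C.y1 p < C.y1 w ∧ C.y1 w < C.y1 q)
  have hS : S.Nonempty := ⟨w0, by
    simp only [S, mem_filter, mem_univ, true_and]; exact ⟨g1, g2, h1, h2⟩⟩
  obtain ⟨w, hwS, hmax⟩ := S.exists_max_image C.y1 hS
  simp only [S, mem_filter, mem_univ, true_and] at hwS hmax
  obtain ⟨gp, gq, hw1, hw2⟩ := hwS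
  refine step3 hW gpq gp gq ?_
  intro v vp vq vw np nq nw
  obtain ⟨np', nq'⟩ := hcl v vp vq np nq
  have Gp : C.G p v := ⟨vp, np, np'⟩
  have Gq : C.G q v := ⟨vq, nq, nq'⟩
  refine ⟨np', nq', fun hn => ?_⟩
  have y2w : C.y2 p < C.y2 w := by
    by_contra hc
    exact gp.2.2 (nest_of_y gp.ne.symm hw1 (lt_of_le_of_ne (not_lt.1 hc)
      (C.ny2 w p gp.ne.symm)))
  have y2w' : C.y2 w < C.y2 q := by
    by_contra hc
    exact gq.2.1 (nest_of_y gq.ne hw2 (lt_of_le_of_ne (not_lt.1 hc) (C.ny2 q w gq.ne)))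
  have key : C.y1 w < C.y1 v → C.y2 v < C.y2 w → False := by
    intro k1 k2
    have k3 : C.y1 v < C.y1 q := by
      by_contra hc
      exact nq' (nest_of_y Gq.ne.symm (lt_of_le_of_ne (not_lt.1 hc) (C.ny1 q v Gq.ne))
        (k2.trans y2w'))
    have := hmax v ⟨Gp, Gq, hw1.trans k1, k3⟩
    omega
  rcases hn with h | h | h | h
  · exact key h.2.1 h.2.2
  · exact key h.2.1 h.2.2
  · have := B1T h vq gq.ne
    omega
  · have := B1B h vp gp.ne
    omega

/-- Two boxes and a third one on the upper left side of both. -/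
lemma step2_left {C : Cfg V} (hW : C.World D) {p q w0 : V} (hpq : C.PP p q) (gpq : C.G p q)
    (hcl : C.Cl2 p q) (g1 : C.G p w0) (g2 : C.G q w0) (h1 : C.PM w0 p) (h2 : C.PM w0 q)
    (hy : ∀ w, C.G p w → C.G q w → ¬ (C.y1 p < C.y1 w ∧ C.y1 w < C.y1 q))
    (hx : ∀ w, C.G p w → C.G q w → ¬ (C.x1 p < C.x1 w ∧ C.x1 w < C.x1 q)) : False := by
  classical
  let S : Finset V := univ.filter (fun w => C.G p w ∧ C.G q w ∧ C.PM w p ∧ C.PM w q)
  have hS : S.Nonempty := ⟨w0, by
    simp only [S, mem_filter, mem_univ, true_and]; exact ⟨g1, g2, h1, h2⟩⟩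
  obtain ⟨w, hwS, hmax⟩ := S.exists_max_image C.x1 hS
  simp only [S, mem_filter, mem_univ, true_and] at hwS hmax
  obtain ⟨gp, gq, hwp, hwq⟩ := hwS
  refine step3 hW gpq gp gq ?_
  intro v vp vq vw np nq nw
  obtain ⟨np', nq'⟩ := hcl v vp vq np nq
  have Gp : C.G p v := ⟨vp, np, np'⟩
  have Gq : C.G q v := ⟨vq, nq, nq'⟩
  refine ⟨np', nq', fun hn => ?_⟩
  have key : C.PM v p → C.PM v q → C.x1 w < C.x1 v → False := by
    intro k1 k2 k3
    have := hmax v ⟨Gp, Gq, k1, k2⟩
    omega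
  rcases hn with h | h | h | h
  · -- `w` to the left of `v`
    have hx1 : C.x1 w < C.x1 v := (C.hx w).trans h.1
    have hvq : C.PM v q := by
      rcases Gq.tri with k | k | k | k
      · exact (chainP vp hpq k).elim
      · exfalso; have := k.2.2.1; have := h.2.1; have := hwq.2.2.1; omega
      · exfalso; have := k.2.2.1; have := h.2.1; have := hwq.2.2.1; omega
      · exact k
    refine key ?_ hvq hx1
    rcases Gp.tri with k | k | k | k
    · exact (hx v Gp Gq ⟨k.1, hvq.1⟩).elim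
    · exfalso; have := k.2.2.1; have := h.2.1; have := hwp.2.2.1; omega
    · exfalso; have := k.2.2.1; have := h.2.1; have := hwp.2.2.1; omega
    · exact k
  · have := B1R h vq gq.ne
    have := hwq.1
    omega
  · -- `w` above `v`
    have hvp : C.PM v p := by
      rcases Gp.tri with k | k | k | k
      · exfalso; have := k.2.1; have := h.2.1; have := hwp.2.1; omega
      · exact (chainP (C.sym _ _ vq) k hpq).elim
      · exfalso; have := k.2.1; have := h.2.1; have := hwp.2.1; omega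
      · exact k
    refine key hvp ?_ h.1
    rcases Gq.tri with k | k | k | k
    · exfalso; have := k.2.1; have := h.2.1; have := hwq.2.1; omega
    · exact (hy v Gp Gq ⟨hvp.2.2.1, k.2.2.1⟩).elim
    · exfalso; have := k.2.1; have := h.2.1; have := hwq.2.1; omega
    · exact k
  · have := B1B h vp gp.ne
    have := hwp.2.2.2
    omega

/-- Two boxes, the first one on the lower left side of the second one. -/
lemma step2_canon {C : Cfg V} (hW : C.World D) {p q : V} (hpq : C.PP p q) (gpq : C.G p q)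
    (hcl : C.Cl2 p q) : False := by
  have hy : ∀ w, C.G p w → C.G q w → ¬ (C.y1 p < C.y1 w ∧ C.y1 w < C.y1 q) :=
    fun w g1 g2 h => step2_mid hW hpq gpq hcl g1 g2 h.1 h.2
  have hx : ∀ w, C.G p w → C.G q w → ¬ (C.x1 p < C.x1 w ∧ C.x1 w < C.x1 q) :=
    fun w g1 g2 h => step2_mid (C := C.swap) hW.swap ((PP_swap _ _ _).2 hpq)
      ((G_swap _ _ _).2 gpq) hcl.swap ((G_swap _ _ _).2 g1) ((G_swap _ _ _).2 g2) h.1 h.2
  obtain ⟨w, ⟨wp, wq⟩, np, nq⟩ := common2 hW p q
  obtain ⟨np', nq'⟩ := hcl w wp wq np nq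
  have Gp : C.G p w := ⟨wp, np, np'⟩
  have Gq : C.G q w := ⟨wq, nq, nq'⟩
  rcases Gp.tri with h | h | h | h
  · -- PP p w
    rcases Gq.tri with k | k | k | k
    · exact chainP wp hpq k
    · exact chainP gpq.1 h k
    · exact hy w Gp Gq ⟨h.2.2.1, k.2.2.1⟩
    · exact hx w Gp Gq ⟨h.1, k.1⟩
  · exact chainP (C.sym _ _ wq) h hpq
  · -- PM p w
    rcases Gq.tri with k | k | k | k
    · have := k.2.2.1; have := h.2.2.1; have := hpq.2.2.1; omega
    · exact hx w Gp Gq ⟨h.1, k.1⟩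
    · -- both on the lower right
      refine step2_left (C := C.flipX.flipY) hW (p := q) (q := p) (w0 := w) ?_ ?_ ?_ ?_ ?_ ?_ ?_
        ?_ ?_
      · exact (PP_flipY _ _ _).2 ((PM_flipX _ _ _).2 hpq)
      · exact (G_flipY _ _ _).2 ((G_flipX _ _ _).2 gpq.symm)
      · exact hcl.flipX.flipY.perm
      · exact (G_flipY _ _ _).2 ((G_flipX _ _ _).2 Gq)
      · exact (G_flipY _ _ _).2 ((G_flipX _ _ _).2 Gp)
      · exact (PM_flipY _ _ _).2 ((PP_flipX _ _ _).2 k)
      · exact (PM_flipY _ _ _).2 ((PP_flipX _ _ _).2 h)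
      · intro u g1 g2 hh
        rw [G_flipY, G_flipX] at g1 g2
        have e1 : -C.y2 q < -C.y2 u := hh.1
        have e2 : -C.y2 u < -C.y2 p := hh.2
        refine hy u g2 g1 ⟨?_, ?_⟩
        · by_contra hc
          exact g2.2.1 (nest_of_y g2.ne (lt_of_le_of_ne (not_lt.1 hc) (C.ny1 u p g2.ne.symm))
            (by omega))
        · by_contra hc
          exact g1.2.2 (nest_of_y g1.ne.symm (lt_of_le_of_ne (not_lt.1 hc) (C.ny1 q u g1.ne))
            (by omega))
      · intro u g1 g2 hh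
        rw [G_flipY, G_flipX] at g1 g2
        have e1 : -C.x2 q < -C.x2 u := hh.1
        have e2 : -C.x2 u < -C.x2 p := hh.2
        refine hx u g2 g1 ⟨?_, ?_⟩
        · by_contra hc
          exact g2.2.1 (nest_of_x g2.ne (lt_of_le_of_ne (not_lt.1 hc) (C.nx1 u p g2.ne.symm))
            (by omega))
        · by_contra hc
          exact g1.2.2 (nest_of_x g1.ne.symm (lt_of_le_of_ne (not_lt.1 hc) (C.nx1 q u g1.ne))
            (by omega))
    · have := k.2.2.1; have := h.2.2.1; have := hpq.2.2.1; omega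
  · -- PM w p
    rcases Gq.tri with k | k | k | k
    · have := k.1; have := h.1; have := hpq.1; omega
    · exact hy w Gp Gq ⟨h.2.2.1, k.2.2.1⟩
    · have := k.1; have := h.1; have := hpq.1; omega
    · exact step2_left hW hpq gpq hcl Gp Gq h k hy hx

/-- Two boxes. -/
lemma step2 {C : Cfg V} (hW : C.World D) {p q : V} (gpq : C.G p q) (hcl : C.Cl2 p q) :
    False := by
  rcases gpq.tri with h | h | h | h
  · exact step2_canon hW h gpq hcl
  · exact step2_canon hW h gpq.symm hcl.perm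
  · exact step2_canon (C := C.flipY) hW.flipY ((PP_flipY _ _ _).2 h) ((G_flipY _ _ _).2 gpq)
      hcl.flipY
  · exact step2_canon (C := C.flipY) hW.flipY ((PP_flipY _ _ _).2 h) ((G_flipY _ _ _).2 gpq.symm)
      hcl.flipY.perm

end Cfg

end Pool.Agent.H84.RV
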