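import Pool.Agent.H84.RV.World2

/-!
There is no configuration in which every box is adjacent to almost all others: conclusion.
-/

open Finset

namespace Pool.Agent.H84.RV
namespace Cfg

variable {V : Type} [Fintype V] {D : ℕ}

/-- The counting argument. -/
lemma count1 {C : Cfg V} (hW : C.World D) {p q v v' : V} (hp : ∀ v, C.adj p v → ¬ C.nest v p)
    (gq : C.G p q) (hq : C.PM q p) (hmax : ∀ w, C.G p w → C.x2 w < C.x2 p → C.x1 w ≤ C.x1 q)
    (hv' : C.PP v' p) (hpv : C.PP p v) (h : C.NL v q) : False := by
  classical
  have hvv' : v ≠ v' := by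
    rintro rfl
    have := hv'.1
    have := hpv.1
    omega
  have nvv' : ¬ C.adj v' v := fun ha => chainP ha hv' hpv
  have nv'v : ¬ C.adj v v' := fun ha => nvv' (C.sym _ _ ha)
  let N : Finset V := univ.filter (fun w => C.adj p w ∧ C.adj v w ∧ C.adj v' w)
  let Ou : Finset V := univ.filter (fun w => C.adj p w ∧ C.nest p w)
  let Lr : Finset V := univ.filter (fun w => C.G p w ∧ C.PM p w)
  let A : Finset V := univ.filter (fun w => w ≠ q ∧ C.adj v w ∧ C.G p w ∧ C.PM w p)
  have hOu : Ou.card ≤ 4 := by
    refine (card_le_card ?_).trans (out_le_four (C := C) {p})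
    intro w hw
    simp only [Ou, mem_filter, mem_univ, true_and] at hw
    simp only [mem_filter, mem_univ, true_and, mem_singleton, forall_eq, exists_eq_left]
    exact hw
  have hN : N ⊆ (Ou ∪ Lr) ∪ insert q A := by
    intro w hw
    simp only [N, mem_filter, mem_univ, true_and] at hw
    obtain ⟨w1, w2, w3⟩ := hw
    simp only [Ou, Lr, A, mem_union, mem_insert, mem_filter, mem_univ, true_and]
    by_cases hn : C.nest p w
    · exact Or.inl (Or.inl ⟨w1, hn⟩)
    · have Gp : C.G p w := ⟨w1, hn, hp w w1⟩
      rcases Gp.tri with k | k | k | k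
      · exact (chainP w3 hv' k).elim
      · exact (chainP (C.sym _ _ w2) k hpv).elim
      · exact Or.inl (Or.inr ⟨Gp, k⟩)
      · by_cases e : w = q
        · exact Or.inr (Or.inl e)
        · exact Or.inr (Or.inr ⟨e, w2, Gp, k⟩)
  have hNT : ∀ w ∈ A, C.NT q w := by
    intro w hw
    simp only [A, mem_filter, mem_univ, true_and] at hw
    obtain ⟨w1, w2, w3, w4⟩ := hw
    have e1 := B1L h (C.sym _ _ w2) w1
    have e2 := hmax w w3 w4.2.1
    have e3 : C.x1 w < C.x1 q := lt_of_le_of_ne e2 (C.nx1 w q w1)
    rcases nest_of_x (Ne.symm w1) e3 e1 with k | k | k | k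
    · exfalso; have := k.1; have := C.hx q; omega
    · exfalso; have := k.1; have := C.hx q; omega
    · exact k
    · exfalso
      have := B1B k gq.1 w3.ne
      have := w4.2.2.2
      omega
  have hA1 : (A.filter (fun w => C.adj q w)).card ≤ 1 := by
    rw [card_le_one]
    intro a ha b hb
    rw [mem_filter] at ha hb
    by_contra hne
    exact lt_asymm (B1T (hNT a ha.1) (C.sym _ _ hb.2) (Ne.symm hne))
      (B1T (hNT b hb.1) (C.sym _ _ ha.2) hne)
  have hA2 : (A.filter (fun w => C.adj q w)).card + (A.filter (fun w => ¬ C.adj q w)).card =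
      A.card := card_filter_add_card_filter_not _
  have hq2 : (insert q (Lr ∪ A.filter (fun w => ¬ C.adj q w))).card ≤ D := by
    refine (card_le_card ?_).trans (hW.1 q)
    intro w hw
    rw [mem_insert, mem_union] at hw
    rw [mem_filter]
    refine ⟨mem_univ _, ?_⟩
    rcases hw with rfl | hw | hw
    · exact C.irr _
    · simp only [Lr, mem_filter, mem_univ, true_and] at hw
      exact fun ha => chainM ha hq hw.2
    · exact (mem_filter.1 hw).2
  have hq3 : (insert q (Lr ∪ A.filter (fun w => ¬ C.adj q w))).card =
      Lr.card + (A.filter (fun w => ¬ C.adj q w)).card + 1 := by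
    rw [card_insert_of_notMem, card_union_of_disjoint]
    · rw [disjoint_left]
      intro w h1 h2
      simp only [Lr, A, mem_filter, mem_univ, true_and] at h1 h2
      have := h1.2.1
      have := h2.1.2.2.2.1
      omega
    · rw [mem_union, not_or]
      constructor
      · simp only [Lr, mem_filter, mem_univ, true_and]
        rintro ⟨-, h2⟩
        have := h2.1
        have := hq.1
        omega
      · simp only [A, mem_filter, mem_univ, true_and]
        rintro ⟨⟨h2, -⟩, -⟩
        exact h2 rfl
  have hNc : N.card ≤ 4 + Lr.card + (A.card + 1) := by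
    have h1 := (card_le_card hN).trans (card_union_le _ _)
    have h2 := card_union_le Ou Lr
    have h3 := card_insert_le q A
    omega
  -- the lower bound
  have hU : (univ : Finset V) ⊆ (N ∪ univ.filter (fun w => ¬ C.adj p w)) ∪
      (univ.filter (fun w => ¬ C.adj v w) ∪ univ.filter (fun w => ¬ C.adj v' w)) := by
    intro w _
    simp only [N, mem_union, mem_filter, mem_univ, true_and]
    by_cases h1 : C.adj p w
    · by_cases h2 : C.adj v w
      · by_cases h3 : C.adj v' w
        · exact Or.inl (Or.inl ⟨h1, h2, h3⟩)
        · exact Or.inr (Or.inr h3)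
      · exact Or.inr (Or.inl h2)
    · exact Or.inl (Or.inr h1)
  have hI : 2 ≤ (univ.filter (fun w => ¬ C.adj v w) ∩ univ.filter (fun w => ¬ C.adj v' w)).card := by
    have : ({v, v'} : Finset V) ⊆
        univ.filter (fun w => ¬ C.adj v w) ∩ univ.filter (fun w => ¬ C.adj v' w) := by
      intro w hw
      rw [mem_insert, mem_singleton] at hw
      simp only [mem_inter, mem_filter, mem_univ, true_and]
      rcases hw with rfl | rfl
      · exact ⟨C.irr _, nvv'⟩
      · exact ⟨nv'v, C.irr _⟩
    have h2 := card_le_card this
    rwa [card_pair hvv'] at h2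
  have hUI := card_union_add_card_inter (univ.filter (fun w => ¬ C.adj v w))
    (univ.filter (fun w => ¬ C.adj v' w))
  have k1 := hW.1 v
  have k2 := hW.1 v'
  have k3 := hW.1 p
  have k4 := hW.2
  have k5 := (card_le_card hU).trans (card_union_le _ _)
  have k6 := card_union_le N (univ.filter (fun w => ¬ C.adj p w))
  rw [card_univ] at k5
  omega

/-- The most inner box on the left side, on the upper left. -/
lemma key1 {C : Cfg V} (hW : C.World D) {p q v' : V} (hp : ∀ v, C.adj p v → ¬ C.nest v p)
    (gq : C.G p q) (hq : C.PM q p) (hmax : ∀ w, C.G p w → C.x2 w < C.x2 p → C.x1 w ≤ C.x1 q)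
    (hv' : C.PP v' p) : False := by
  refine step2 hW gq ?_
  intro v vp vq np nq
  refine ⟨hp v vp, fun hn => ?_⟩
  have Gp : C.G p v := ⟨vp, np, hp v vp⟩
  rcases hn with h | h | h | h
  · rcases Gp.tri with k | k | k | k
    · exact count1 hW hp gq hq hmax hv' k h
    · have := k.2.2.1; have := h.2.1; have := hq.2.2.1; omega
    · have := k.2.2.1; have := h.2.1; have := hq.2.2.1; omega
    · have := hmax v Gp k.2.1
      have := h.1
      have := C.hx q
      omega
  · have := B1R h vp gq.ne
    have := hq.1
    omega
  · have := hmax v Gp (h.2.1.trans hq.2.1)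
    have := h.1
    omega
  · have := B1B h vp gq.ne
    have := hq.2.2.2
    omega

/-- Boxes on the upper left and on the lower left. -/
lemma half_left {C : Cfg V} (hW : C.World D) {p u u' : V} (hp : ∀ v, C.adj p v → ¬ C.nest v p)
    (g1 : C.G p u) (h1 : C.PM u p) (h2 : C.PP u' p) : False := by
  classical
  let S : Finset V := univ.filter (fun w => C.G p w ∧ C.x2 w < C.x2 p)
  have hS : S.Nonempty := ⟨u, by
    simp only [S, mem_filter, mem_univ, true_and]; exact ⟨g1, h1.2.1⟩⟩
  obtain ⟨q, hqS, hmax⟩ := S.exists_max_image C.x1 hS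
  simp only [S, mem_filter, mem_univ, true_and] at hqS hmax
  obtain ⟨gq, hq⟩ := hqS
  rcases gq.tri with k | k | k | k
  · have := k.2.1; omega
  · exact key1 (C := C.flipY) hW.flipY (p := p) (q := q) (v' := u)
      (fun v hv hn => hp v hv ((nest_flipY _ _ _).1 hn)) ((G_flipY _ _ _).2 gq)
      ((PM_flipY _ _ _).2 k) (fun w hw h => hmax w ⟨(G_flipY _ _ _).1 hw, h⟩)
      ((PP_flipY _ _ _).2 h1)
  · have := k.2.1; omega
  · exact key1 hW hp gq k (fun w hw h => hmax w ⟨hw, h⟩) h2

/-- A box on the upper left. -/
lemma step1_left {C : Cfg V} (hW : C.World D) {p u : V} (hp : ∀ v, C.adj p v → ¬ C.nest v p)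
    (g1 : C.G p u) (h1 : C.PM u p) : False := by
  classical
  by_cases hLL : ∃ u', C.PP u' p
  · obtain ⟨u', h2⟩ := hLL
    exact half_left hW hp g1 h1 h2
  by_cases hUR : ∃ u', C.PP p u'
  · obtain ⟨u', h2⟩ := hUR
    refine half_left (C := C.swap.flipX.flipY) hW (p := p) (u := u) (u' := u')
      (fun v hv hn => hp v hv ?_) ?_ ?_ ?_
    · rwa [nest_flipY, nest_flipX, nest_swap] at hn
    · rwa [G_flipY, G_flipX, G_swap]
    · rwa [PM_flipY, PP_flipX, PM_swap]
    · rwa [PP_flipY, PM_flipX, PP_swap]
  let S : Finset V := univ.filter (fun w => C.G p w ∧ C.PM w p)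
  have hS : S.Nonempty := ⟨u, by
    simp only [S, mem_filter, mem_univ, true_and]; exact ⟨g1, h1⟩⟩
  obtain ⟨q, hqS, hmax⟩ := S.exists_max_image C.x1 hS
  simp only [S, mem_filter, mem_univ, true_and] at hqS hmax
  obtain ⟨gq, hq⟩ := hqS
  refine step2 hW gq ?_
  intro v vp vq np nq
  refine ⟨hp v vp, fun hn => ?_⟩
  have Gp : C.G p v := ⟨vp, np, hp v vp⟩
  rcases hn with h | h | h | h
  · rcases Gp.tri with k | k | k | k
    · exact hUR ⟨v, k⟩
    · have := k.2.2.1; have := h.2.1; have := hq.2.2.1; omega
    · have := k.2.2.1; have := h.2.1; have := hq.2.2.1; omega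
    · have := hmax v ⟨Gp, k⟩
      have := h.1
      have := C.hx q
      omega
  · have := B1R h vp gq.ne
    have := hq.1
    omega
  · rcases Gp.tri with k | k | k | k
    · have := k.2.1; have := h.2.1; have := hq.2.1; omega
    · exact hLL ⟨v, k⟩
    · have := k.2.1; have := h.2.1; have := hq.2.1; omega
    · have := hmax v ⟨Gp, k⟩
      have := h.1
      omega
  · have := B1B h vp gq.ne
    have := hq.2.2.2
    omega

/-- One box. -/
lemma step1 {C : Cfg V} (hW : C.World D) {p : V} (hp : ∀ v, C.adj p v → ¬ C.nest v p) :
    False := by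
  obtain ⟨w, wp, np⟩ := common1 hW p
  have Gp : C.G p w := ⟨wp, np, hp w wp⟩
  rcases Gp.tri with h | h | h | h
  · refine step1_left (C := C.flipX) hW (p := p) (u := w) (fun v hv hn => hp v hv ?_) ?_ ?_
    · rwa [nest_flipX] at hn
    · rwa [G_flipX]
    · rwa [PM_flipX]
  · refine step1_left (C := C.flipY) hW (p := p) (u := w) (fun v hv hn => hp v hv ?_) ?_ ?_
    · rwa [nest_flipY] at hn
    · rwa [G_flipY]
    · rwa [PM_flipY]
  · refine step1_left (C := C.flipX.flipY) hW (p := p) (u := w) (fun v hv hn => hp v hv ?_) ?_ ?_
    · rwa [nest_flipY, nest_flipX] at hn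
    · rwa [G_flipY, G_flipX]
    · rwa [PM_flipY, PP_flipX]
  · exact step1_left hW hp Gp h

lemma rank_card (f : V → ℤ) (hf : Function.Injective f) (D : ℕ) :
    (univ.filter (fun p => (univ.filter (fun z => f z < f p)).card < D)).card ≤ D := by
  classical
  calc _ ≤ (range D).card := by
        refine card_le_card_of_injOn (fun p => (univ.filter (fun z => f z < f p)).card) ?_ ?_
        · intro p hp
          rw [Finset.mem_coe, mem_filter] at hp
          exact mem_coe.2 (mem_range.2 hp.2)
        · intro p _ q _ hpq
          have key : ∀ a b, f a < f b → (univ.filter (fun z => f z < f a)).card <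
              (univ.filter (fun z => f z < f b)).card := by
            intro a b hab
            refine card_lt_card ?_
            rw [ssubset_iff_of_subset]
            · exact ⟨a, by simp [hab], by simp⟩
            · intro z hz
              simp only [mem_filter, mem_univ, true_and] at hz ⊢
              exact hz.trans hab
          rcases lt_trichotomy (f p) (f q) with h | h | h
          · exact absurd hpq (key p q h).ne
          · exact hf h
          · exact absurd hpq.symm (key q p h).ne
    _ = D := card_range D

/-- Some box has no adjacent box nested in it. -/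
lemma step0 {C : Cfg V} (hW : C.World D) : ∃ p, ∀ v, C.adj p v → ¬ C.nest v p := by
  classical
  by_contra hc
  push Not at hc
  have inj : ∀ f : V → ℤ, (∀ u v, u ≠ v → f u ≠ f v) → Function.Injective f := by
    intro f hf u v h
    by_contra hne
    exact hf u v hne h
  have hlt : ∀ (v : V) (S : Finset V), v ∉ S → (∀ z ∈ S, ¬ C.adj v z) → S.card < D := by
    intro v S h1 h2
    have h3 : (insert v S).card ≤ D := by
      refine (card_le_card ?_).trans (hW.1 v)
      intro z hz
      rw [mem_filter]
      refine ⟨mem_univ _, ?_⟩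
      rcases mem_insert.1 hz with rfl | h
      · exact C.irr _
      · exact h2 z h
    rw [card_insert_of_notMem h1] at h3
    omega
  have hsub : (univ : Finset V) ⊆
      (univ.filter (fun p => (univ.filter (fun z => C.x2 z < C.x2 p)).card < D) ∪
        univ.filter (fun p => (univ.filter (fun z => -C.x1 z < -C.x1 p)).card < D)) ∪
      (univ.filter (fun p => (univ.filter (fun z => -C.y1 z < -C.y1 p)).card < D) ∪
        univ.filter (fun p => (univ.filter (fun z => C.y2 z < C.y2 p)).card < D)) := by
    intro p _
    obtain ⟨v, hv, hn⟩ := hc p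
    have e1 := C.hx v
    have e2 := C.hy v
    simp only [mem_union, mem_filter, mem_univ, true_and]
    rcases hn with h | h | h | h
    · left; left
      refine hlt v _ ?_ ?_
      · simp only [mem_filter, mem_univ, true_and]
        have := h.1; have := C.hx p
        omega
      · intro z hz ha
        simp only [mem_filter, mem_univ, true_and] at hz
        have := B1L h (C.sym _ _ ha) (by rintro rfl; omega)
        omega
    · left; right
      refine hlt v _ ?_ ?_
      · simp only [mem_filter, mem_univ, true_and]
        have := h.1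
        omega
      · intro z hz ha
        simp only [mem_filter, mem_univ, true_and] at hz
        have := B1R h (C.sym _ _ ha) (by rintro rfl; omega)
        omega
    · right; left
      refine hlt v _ ?_ ?_
      · simp only [mem_filter, mem_univ, true_and]
        have := h.2.2
        omega
      · intro z hz ha
        simp only [mem_filter, mem_univ, true_and] at hz
        have := B1T h (C.sym _ _ ha) (by rintro rfl; omega)
        omega
    · right; right
      refine hlt v _ ?_ ?_
      · simp only [mem_filter, mem_univ, true_and]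
        have := h.2.2
        omega
      · intro z hz ha
        simp only [mem_filter, mem_univ, true_and] at hz
        have := B1B h (C.sym _ _ ha) (by rintro rfl; omega)
        omega
  have h1 := (card_le_card hsub).trans (card_union_le _ _)
  have h2 := card_union_le
    (univ.filter (fun p => (univ.filter (fun z => C.x2 z < C.x2 p)).card < D))
    (univ.filter (fun p => (univ.filter (fun z => -C.x1 z < -C.x1 p)).card < D))
  have h3 := card_union_le
    (univ.filter (fun p => (univ.filter (fun z => -C.y1 z < -C.y1 p)).card < D))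
    (univ.filter (fun p => (univ.filter (fun z => C.y2 z < C.y2 p)).card < D))
  have k1 := rank_card C.x2 (inj _ C.nx2) D
  have k2 := rank_card (fun z => -C.x1 z) (inj _ fun u v h e => C.nx1 u v h (neg_injective e)) D
  have k3 := rank_card (fun z => -C.y1 z) (inj _ fun u v h e => C.ny1 u v h (neg_injective e)) D
  have k4 := rank_card C.y2 (inj _ C.ny2) D
  have k5 := hW.2
  rw [card_univ] at h1
  omega

theorem no_world (C : Cfg V) (D : ℕ) : ¬ C.World D := by
  intro hW
  obtain ⟨p, hp⟩ := step0 hW
  exact step1 hW hp

end Cfg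

end Pool.Agent.H84.RV
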